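import Pool.Agent.H136.AntiOdd

/-! The case of a longest antidirected path with an odd number of vertices. -/

set_option autoImplicit false

namespace Pool.Agent.H136.AntiPath

open Finset Pool.Agent.H136.CycList

variable {V : Type*} [Fintype V] [DecidableEq V]

namespace Ctx

variable {C : Ctx V}

section even

variable {n : ℕ} (hM : C.M = 2 * n + 1) (hδ : 3 * n + 2 ≤ 2 * C.δ) {s : Bool} {A B : Finset V}

include hδ in
lemma even_mm1 (h : C.Sys s A B) (hA : A.card = n + 1) (hB : B.card = n) {x : V} (hx : x ∈ A) :
    C.CycOn s (A.erase x) B := by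
  have hW : (A ∪ B).card = 2 * n + 1 := by rw [card_union_of_disjoint h.disj]; omega
  refine mm (q := n) (d := C.δ - n) (disjoint_of_subset_left (erase_subset _ _) h.disj)
    (by rw [card_erase_of_mem hx]; omega) hB ?_ ?_ (by omega)
  · intro a' ha'
    have ha'A := mem_of_mem_erase ha'
    have := deg_in (C := C) (s := s) (x := a') (W := A ∪ B) (S := B)
      (mem_union_left _ ha'A) (h.hA a' ha'A) subset_union_right
      (fun hh => disjoint_left.1 h.disj ha'A hh)
    rw [hW, hB] at this
    omega
  · intro b' hb'
    have := deg_in (C := C) (s := !s) (x := b') (W := A ∪ B) (S := A.erase x)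
      (mem_union_right _ hb') (h.hB b' hb')
      (fun y hy => mem_union_left _ (mem_of_mem_erase hy))
      (fun hh => disjoint_left.1 h.disj (mem_of_mem_erase hh) hb')
    rw [hW, card_erase_of_mem hx] at this
    omega

include hδ in
lemma even_mm2 (h : C.Sys s A B) (hA : A.card = n + 1) (hB : B.card = n) {x1 x2 b : V}
    (hx1 : x1 ∈ A) (hx2 : x2 ∈ A) (hne : x2 ≠ x1) (hb : b ∈ B) :
    C.CycOn s ((A.erase x1).erase x2) (B.erase b) ∧ ((A.erase x1).erase x2).card = n - 1 ∧
      (B.erase b).card = n - 1 := by
  have hn : 0 < n := by rw [← hB]; exact card_pos.2 ⟨b, hb⟩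
  have hW : (A ∪ B).card = 2 * n + 1 := by rw [card_union_of_disjoint h.disj]; omega
  have c1 : ((A.erase x1).erase x2).card = n - 1 := by
    rw [card_erase_of_mem (mem_erase.2 ⟨hne, hx2⟩), card_erase_of_mem hx1]
    omega
  have c2 : (B.erase b).card = n - 1 := by rw [card_erase_of_mem hb]; omega
  refine ⟨mm (q := n - 1) (d := C.δ - n - 1) ?_ c1 c2 ?_ ?_ (by omega), c1, c2⟩
  · exact disjoint_of_subset_left ((erase_subset _ _).trans (erase_subset _ _))
      (disjoint_of_subset_right (erase_subset _ _) h.disj)
  · intro a' ha'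
    have ha'A := mem_of_mem_erase (mem_of_mem_erase ha')
    have := deg_in (C := C) (s := s) (x := a') (W := A ∪ B) (S := B.erase b)
      (mem_union_left _ ha'A) (h.hA a' ha'A)
      (fun y hy => mem_union_right _ (mem_of_mem_erase hy))
      (fun hh => disjoint_left.1 h.disj ha'A (mem_of_mem_erase hh))
    rw [hW, c2] at this
    omega
  · intro b' hb'
    have hb'B := mem_of_mem_erase hb'
    have := deg_in (C := C) (s := !s) (x := b') (W := A ∪ B) (S := (A.erase x1).erase x2)
      (mem_union_right _ hb'B) (h.hB b' hb'B)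
      (fun y hy => mem_union_left _ (mem_of_mem_erase (mem_of_mem_erase hy)))
      (fun hh => disjoint_left.1 h.disj (mem_of_mem_erase (mem_of_mem_erase hh)) hb'B)
    rw [hW, c1] at this
    omega

include hδ in
lemma even_mm3 (h : C.Sys s A B) (hA : A.card = n + 1) (hB : B.card = n) {a b : V}
    (ha : a ∈ A) (hb : b ∈ B) (hda : C.δ - n ≤ (C.N (!s) a ∩ A).card) :
    C.CycOn s (A.erase a) (insert a (B.erase b)) ∧ (insert a (B.erase b)).card = n ∧
      Disjoint (A.erase a) (insert a (B.erase b)) := by
  have hn : 0 < n := by rw [← hB]; exact card_pos.2 ⟨b, hb⟩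
  have hW : (A ∪ B).card = 2 * n + 1 := by rw [card_union_of_disjoint h.disj]; omega
  have haB : a ∉ B.erase b := fun hh => disjoint_left.1 h.disj ha (mem_of_mem_erase hh)
  have c2 : (insert a (B.erase b)).card = n := by
    rw [card_insert_of_notMem haB, card_erase_of_mem hb]
    omega
  have hdisj : Disjoint (A.erase a) (insert a (B.erase b)) := by
    rw [disjoint_left]
    intro x hx hx'
    rcases mem_insert.1 hx' with rfl | hx'
    · exact (mem_erase.1 hx).1 rfl
    · exact disjoint_left.1 h.disj (mem_of_mem_erase hx) (mem_of_mem_erase hx')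
  have hsub : insert a (B.erase b) ⊆ A ∪ B := by
    intro x hx
    rcases mem_insert.1 hx with rfl | hx
    · exact mem_union_left _ ha
    · exact mem_union_right _ (mem_of_mem_erase hx)
  refine ⟨mm (q := n) (d := C.δ - n) hdisj (by rw [card_erase_of_mem ha]; omega) c2 ?_ ?_
    (by omega), c2, hdisj⟩
  · intro a' ha'
    have ha'A := mem_of_mem_erase ha'
    have := deg_in (C := C) (s := s) (x := a') (W := A ∪ B) (S := insert a (B.erase b))
      (mem_union_left _ ha'A) (h.hA a' ha'A) hsub (disjoint_left.1 hdisj ha')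
    rw [hW, c2] at this
    omega
  · intro b' hb'
    rcases mem_insert.1 hb' with rfl | hb'
    · refine hda.trans (card_le_card ?_)
      intro y hy
      rw [mem_inter] at hy ⊢
      refine ⟨hy.1, mem_erase.2 ⟨?_, hy.2⟩⟩
      rintro rfl
      exact C.not_mem_N _ _ hy.1
    · have hb'B := mem_of_mem_erase hb'
      have := deg_in (C := C) (s := !s) (x := b') (W := A ∪ B) (S := A.erase a)
        (mem_union_right _ hb'B) (h.hB b' hb'B)
        (fun y hy => mem_union_left _ (mem_of_mem_erase hy))
        (fun hh => disjoint_left.1 h.disj (mem_of_mem_erase hh) hb'B)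
      rw [hW, card_erase_of_mem ha] at this
      omega

/-- some member of `A` is met by at least the average number of members of `A` -/
lemma even_avg (h : C.Sys s A B) (hA : A.card = n + 1) (hB : B.card = n) :
    ∃ a ∈ A, C.δ - n ≤ (C.N (!s) a ∩ A).card := by
  classical
  have hW : (A ∪ B).card = 2 * n + 1 := by rw [card_union_of_disjoint h.disj]; omega
  have hsum : ∑ a ∈ A, (C.N s a ∩ A).card = ∑ a ∈ A, (C.N (!s) a ∩ A).card := by
    have h1 := sum_card_bipartiteAbove_eq_sum_card_bipartiteBelow (s := A) (t := A) (C.e s)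
    have e1 : ∀ a, bipartiteAbove (C.e s) A a = C.N s a ∩ A := by
      intro a
      ext x
      rw [mem_bipartiteAbove, mem_inter, C.mem_N, and_comm]
    have e2 : ∀ a, bipartiteBelow (C.e s) A a = C.N (!s) a ∩ A := by
      intro a
      ext x
      rw [mem_bipartiteBelow, mem_inter, C.mem_N, and_comm]
      exact and_congr_left fun _ => ⟨fun h => C.symm _ _ _ h, fun h => C.symm' h⟩
    simp only [e1, e2] at h1
    exact h1
  refine exists_le_of_sum_le (f := fun _ => C.δ - n) (card_pos.1 (by omega)) ?_
  rw [← hsum]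
  apply sum_le_sum
  intro a ha
  have := deg_in (C := C) (s := s) (x := a) (W := A ∪ B) (S := A.erase a)
    (mem_union_left _ ha) (h.hA a ha)
    (fun y hy => mem_union_left _ (mem_of_mem_erase hy)) (by simp)
  have h2 : (C.N s a ∩ A.erase a).card ≤ (C.N s a ∩ A).card :=
    card_le_card (inter_subset_inter_left (erase_subset _ _))
  rw [hW, card_erase_of_mem ha] at this
  omega

include hM hδ in
lemma even_P3 (h : C.Sys s A B) (hA : A.card = n + 1) (hB : B.card = n) {a a' : V} (ha : a ∈ A)
    (ha' : a' ∈ A) (he : C.e s a' a) : C.N (!s) a ⊆ A ∪ B := by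
  have hne : a' ≠ a := by
    rintro rfl
    exact C.irr _ _ he
  intro y hy
  rw [C.mem_N] at hy
  by_contra hyW
  have hyA : y ∉ A := fun h => hyW (mem_union_left _ h)
  have hyB : y ∉ B := fun h => hyW (mem_union_right _ h)
  have hd : Disjoint (A.erase a) B := disjoint_of_subset_left (erase_subset _ _) h.disj
  obtain ⟨t, ht, hlen, hmem⟩ := (even_mm1 hδ h hA hB ha).pathFrom hd (mem_erase.2 ⟨hne, ha'⟩)
  have hin : ∀ g ∈ (a', s) :: t, g.1 ∈ A.erase a ∨ g.1 ∈ B := by
    intro g hg
    rcases (hmem g).1 hg with h | h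
    · exact Or.inl h.2
    · exact Or.inr h.2
  have h1 : C.AP ((a, !s) :: (a', s) :: t) := by
    refine ht.cons (by simpa [adj] using C.symm _ _ _ he) ?_
    intro g hg hga
    simp only at hga
    rcases hin g hg with h' | h'
    · exact (mem_erase.1 h').1 hga
    · exact disjoint_left.1 h.disj ha (hga ▸ h')
  have h2 : C.AP ((y, s) :: (a, !s) :: (a', s) :: t) := by
    refine h1.cons (by simpa [adj] using C.symm' hy) ?_
    intro g hg hgy
    simp only at hgy
    rcases List.mem_cons.1 hg with rfl | hg
    · exact hyA (hgy ▸ ha)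
    · rcases hin g hg with h' | h'
      · exact hyA (hgy ▸ mem_of_mem_erase h')
      · exact hyB (hgy ▸ h')
  have h4 := h2.le
  simp only [List.length_cons] at h4 hlen
  rw [card_erase_of_mem ha] at hlen
  omega

include hM hδ in
lemma even_P3' (h : C.Sys s A B) (hA : A.card = n + 1) (hB : B.card = n) {b b' : V} (hb : b ∈ B)
    (hb' : b' ∈ B) (he : C.e s b b') : C.N s b ⊆ A ∪ B := by
  have hne : b' ≠ b := by
    rintro rfl
    exact C.irr _ _ he
  intro y hy
  rw [C.mem_N] at hy
  by_contra hyW
  have hyA : y ∉ A := fun h => hyW (mem_union_left _ h)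
  have hyB : y ∉ B := fun h => hyW (mem_union_right _ h)
  obtain ⟨a, ha, hda⟩ := even_avg h hA hB
  obtain ⟨hcyc, hcard, hd⟩ := even_mm3 hδ h hA hB ha hb hda
  obtain ⟨t, ht, hlen, hmem⟩ := hcyc.pathFrom' hd
    (mem_insert_of_mem (mem_erase.2 ⟨hne, hb'⟩))
  have hin : ∀ g ∈ (b', !s) :: t, g.1 ∈ A ∨ g.1 ∈ B.erase b := by
    intro g hg
    rcases (hmem g).1 hg with h | h
    · exact Or.inl (mem_of_mem_erase h.2)
    · rcases mem_insert.1 h.2 with h' | h'
      · exact Or.inl (h' ▸ ha)
      · exact Or.inr h'
  have h1 : C.AP ((b, s) :: (b', !s) :: t) := by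
    refine ht.cons (by simpa [adj] using he) ?_
    intro g hg hga
    simp only at hga
    rcases hin g hg with h' | h'
    · exact disjoint_left.1 h.disj (hga ▸ h') hb
    · exact (mem_erase.1 h').1 hga
  have h2 : C.AP ((y, !s) :: (b, s) :: (b', !s) :: t) := by
    refine h1.cons (by simpa [adj] using C.symm _ _ _ hy) ?_
    intro g hg hgy
    simp only at hgy
    rcases List.mem_cons.1 hg with rfl | hg
    · exact hyB (hgy ▸ hb)
    · rcases hin g hg with h' | h'
      · exact hyA (hgy ▸ h')
      · exact hyB (hgy ▸ mem_of_mem_erase h')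
  have h4 := h2.le
  simp only [List.length_cons] at h4 hlen
  rw [card_erase_of_mem ha, hcard] at hlen
  omega

include hM hδ in
lemma even_P4 (h : C.Sys s A B) (hA : A.card = n + 1) (hB : B.card = n) {a a' b : V} (ha : a ∈ A)
    (ha' : a' ∈ A) (hb : b ∈ B) (he : C.e s a' a) (hba : C.e s b a) :
    ∃ b' ∈ B, C.e s b b' := by
  have hn : 0 < n := by rw [← hB]; exact card_pos.2 ⟨b, hb⟩
  have hne : a' ≠ a := by
    rintro rfl
    exact C.irr _ _ he
  by_contra hcon
  push Not at hcon
  by_cases hsub : C.N s b ⊆ A ∪ B
  · have hsub' : C.N s b ⊆ A := by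
      intro w hw
      rcases mem_union.1 (hsub hw) with h | h
      · exact h
      · exact absurd (C.mem_N.1 hw) (hcon w h)
    have h1 := card_le_card hsub'
    have h2 := C.card_N s b
    omega
  · obtain ⟨y, hy, hyW⟩ := not_subset.1 hsub
    rw [C.mem_N] at hy
    have hyA : y ∉ A := fun h => hyW (mem_union_left _ h)
    have hyB : y ∉ B := fun h => hyW (mem_union_right _ h)
    have hW : (A ∪ B).card = 2 * n + 1 := by rw [card_union_of_disjoint h.disj]; omega
    obtain ⟨hcyc, hc1, hc2⟩ := even_mm2 hδ h hA hB ha ha' hne hb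
    have hd : Disjoint ((A.erase a).erase a') (B.erase b) :=
      disjoint_of_subset_left ((erase_subset _ _).trans (erase_subset _ _))
        (disjoint_of_subset_right (erase_subset _ _) h.disj)
    obtain ⟨b1, hb1⟩ : (C.N s a' ∩ B.erase b).Nonempty := by
      rw [← card_pos]
      have := deg_in (C := C) (s := s) (x := a') (W := A ∪ B) (S := B.erase b)
        (mem_union_left _ ha') (h.hA a' ha')
        (fun y hy => mem_union_right _ (mem_of_mem_erase hy))
        (fun hh => disjoint_left.1 h.disj ha' (mem_of_mem_erase hh))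
      rw [hW, hc2] at this
      omega
    rw [mem_inter, C.mem_N] at hb1
    obtain ⟨t, ht, hlen, hmem⟩ := hcyc.pathFrom' hd hb1.2
    have hin : ∀ g ∈ (b1, !s) :: t, g.1 ∈ (A.erase a).erase a' ∨ g.1 ∈ B.erase b := by
      intro g hg
      rcases (hmem g).1 hg with h | h
      · exact Or.inl h.2
      · exact Or.inr h.2
    have h0 : C.AP ((a', s) :: (b1, !s) :: t) := by
      refine ht.cons (by simpa [adj] using hb1.1) ?_
      intro g hg hga
      simp only at hga
      rcases hin g hg with h' | h'
      · exact (mem_erase.1 h').1 hga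
      · exact disjoint_left.1 h.disj ha' (hga ▸ mem_of_mem_erase h')
    have h1 : C.AP ((a, !s) :: (a', s) :: (b1, !s) :: t) := by
      refine h0.cons (by simpa [adj] using C.symm _ _ _ he) ?_
      intro g hg hga
      simp only at hga
      rcases List.mem_cons.1 hg with rfl | hg
      · exact hne hga
      rcases hin g hg with h' | h'
      · exact (mem_erase.1 (mem_of_mem_erase h')).1 hga
      · exact disjoint_left.1 h.disj ha (hga ▸ mem_of_mem_erase h')
    have h2 : C.AP ((b, s) :: (a, !s) :: (a', s) :: (b1, !s) :: t) := by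
      refine h1.cons (by simpa [adj] using hba) ?_
      intro g hg hgy
      simp only at hgy
      rcases List.mem_cons.1 hg with rfl | hg
      · simp only at hgy
        subst hgy
        exact disjoint_left.1 h.disj ha hb
      rcases List.mem_cons.1 hg with rfl | hg
      · simp only at hgy
        subst hgy
        exact disjoint_left.1 h.disj ha' hb
      · rcases hin g hg with h' | h'
        · exact disjoint_left.1 h.disj (mem_of_mem_erase (mem_of_mem_erase h')) (hgy ▸ hb)
        · exact (mem_erase.1 h').1 hgy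
    have h3 : C.AP ((y, !s) :: (b, s) :: (a, !s) :: (a', s) :: (b1, !s) :: t) := by
      refine h2.cons (by simpa [adj] using C.symm _ _ _ hy) ?_
      intro g hg hgw
      simp only at hgw
      rcases List.mem_cons.1 hg with rfl | hg
      · exact hyB (hgw ▸ hb)
      rcases List.mem_cons.1 hg with rfl | hg
      · exact hyA (hgw ▸ ha)
      rcases List.mem_cons.1 hg with rfl | hg
      · exact hyA (hgw ▸ ha')
      · rcases hin g hg with h' | h'
        · exact hyA (hgw ▸ mem_of_mem_erase (mem_of_mem_erase h'))
        · exact hyB (hgw ▸ mem_of_mem_erase h')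
    have h4 := h3.le
    simp only [List.length_cons] at h4 hlen
    rw [hc1, hc2] at hlen
    omega

include hM hδ in
lemma even_P4' (h : C.Sys s A B) (hA : A.card = n + 1) (hB : B.card = n) {a b b' : V} (hb : b ∈ B)
    (hb' : b' ∈ B) (ha : a ∈ A) (he : C.e s b b') (hba : C.e s b a) :
    ∃ a' ∈ A, C.e s a' a := by
  have hn : 0 < n := by rw [← hB]; exact card_pos.2 ⟨b, hb⟩
  have hne : b' ≠ b := by
    rintro rfl
    exact C.irr _ _ he
  by_contra hcon
  push Not at hcon
  by_cases hsub : C.N (!s) a ⊆ A ∪ B
  · have hsub' : C.N (!s) a ⊆ B := by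
      intro w hw
      rcases mem_union.1 (hsub hw) with h | h
      · exact absurd (C.symm' (C.mem_N.1 hw)) (hcon w h)
      · exact h
    have h1 := card_le_card hsub'
    have h2 := C.card_N (!s) a
    omega
  · obtain ⟨y, hy, hyW⟩ := not_subset.1 hsub
    rw [C.mem_N] at hy
    have hyA : y ∉ A := fun h => hyW (mem_union_left _ h)
    have hyB : y ∉ B := fun h => hyW (mem_union_right _ h)
    have claim : ∀ a2 ∈ A, a2 ≠ a → ∀ w, C.e s y w → w ∉ B → w ∉ A.erase a2 → False := by
      intro a2 ha2 ha2a w hyw hwB hwA
      obtain ⟨hcyc, hc1, hc2⟩ := even_mm2 hδ h hA hB ha ha2 ha2a hb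
      have hd : Disjoint ((A.erase a).erase a2) (B.erase b) :=
        disjoint_of_subset_left ((erase_subset _ _).trans (erase_subset _ _))
          (disjoint_of_subset_right (erase_subset _ _) h.disj)
      obtain ⟨t, ht, hlen, hmem⟩ := hcyc.pathFrom' hd (mem_erase.2 ⟨hne, hb'⟩)
      have hin : ∀ g ∈ (b', !s) :: t, g.1 ∈ (A.erase a).erase a2 ∨ g.1 ∈ B.erase b := by
        intro g hg
        rcases (hmem g).1 hg with h | h
        · exact Or.inl h.2
        · exact Or.inr h.2
      have h1 : C.AP ((b, s) :: (b', !s) :: t) := by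
        refine ht.cons (by simpa [adj] using he) ?_
        intro g hg hga
        simp only at hga
        rcases hin g hg with h' | h'
        · exact disjoint_left.1 h.disj (mem_of_mem_erase (mem_of_mem_erase h')) (hga ▸ hb)
        · exact (mem_erase.1 h').1 hga
      have h2 : C.AP ((a, !s) :: (b, s) :: (b', !s) :: t) := by
        refine h1.cons (by simpa [adj] using C.symm _ _ _ hba) ?_
        intro g hg hga
        simp only at hga
        rcases List.mem_cons.1 hg with rfl | hg
        · simp only at hga
          subst hga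
          exact disjoint_left.1 h.disj ha hb
        rcases hin g hg with h' | h'
        · exact (mem_erase.1 (mem_of_mem_erase h')).1 hga
        · exact disjoint_left.1 h.disj ha (hga ▸ mem_of_mem_erase h')
      have h3 : C.AP ((y, s) :: (a, !s) :: (b, s) :: (b', !s) :: t) := by
        refine h2.cons (by simpa [adj] using C.symm' hy) ?_
        intro g hg hgw
        simp only at hgw
        rcases List.mem_cons.1 hg with rfl | hg
        · exact hyA (hgw ▸ ha)
        rcases List.mem_cons.1 hg with rfl | hg
        · exact hyB (hgw ▸ hb)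
        · rcases hin g hg with h' | h'
          · exact hyA (hgw ▸ mem_of_mem_erase (mem_of_mem_erase h'))
          · exact hyB (hgw ▸ mem_of_mem_erase h')
      have h4 : C.AP ((w, !s) :: (y, s) :: (a, !s) :: (b, s) :: (b', !s) :: t) := by
        refine h3.cons (by simpa [adj] using C.symm _ _ _ hyw) ?_
        intro g hg hgw
        simp only at hgw
        rcases List.mem_cons.1 hg with rfl | hg
        · simp only at hgw
          subst hgw
          exact C.irr _ _ hyw
        rcases List.mem_cons.1 hg with rfl | hg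
        · exact hwA (mem_erase.2 ⟨fun h' => ha2a (by rw [← h']; exact hgw.symm), hgw ▸ ha⟩)
        rcases List.mem_cons.1 hg with rfl | hg
        · exact hwB (hgw ▸ hb)
        · rcases hin g hg with h' | h'
          · rw [mem_erase, mem_erase] at h'
            exact hwA (mem_erase.2 ⟨hgw ▸ h'.1, hgw ▸ h'.2.2⟩)
          · exact hwB (hgw ▸ mem_of_mem_erase h')
      have h5 := h4.le
      simp only [List.length_cons] at h5 hlen
      rw [hc1, hc2] at hlen
      omega
    have hsub' : C.N s y ⊆ insert a B := by
      intro w hw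
      rw [C.mem_N] at hw
      by_contra hcw
      rw [mem_insert, not_or] at hcw
      by_cases hwA : w ∈ A
      · exact claim w hwA hcw.1 w hw hcw.2 (by simp)
      · obtain ⟨a2, ha2⟩ := card_pos.1 (by rw [card_erase_of_mem ha]; omega : 0 < (A.erase a).card)
        exact claim a2 (mem_of_mem_erase ha2) (mem_erase.1 ha2).1 w hw hcw.2
          (fun h => hwA (mem_of_mem_erase h))
    have h1 := card_le_card hsub'
    have h2 := C.card_N s y
    have h3 := card_insert_le a B
    omega

include hM hδ in
/-- the closed system covers everything -/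
lemma even_closed (h : C.Sys s A B) (hA : A.card = n + 1) (hB : B.card = n)
    (hconn : ∀ R : V × Bool → Prop, (∀ g h, R g → C.adj g h → R h) →
      ∀ v, R (v, true) → R (v, false) → ∀ w, R (w, true) ∨ R (w, false)) :
    ∀ w, w ∈ A ∪ B := by
  refine closure h.hA h.hB (fun a ha a' ha' he => even_P3 hM hδ h hA hB ha ha' he)
    (fun b hb b' hb' he => even_P3' hM hδ h hA hB hb hb' he)
    (fun a ha a' ha' b hb he hba => even_P4 hM hδ h hA hB ha ha' hb he hba)
    (fun b hb b' hb' a ha he hba => even_P4' hM hδ h hA hB hb hb' ha he hba) ?_ hconn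
  obtain ⟨a, ha⟩ := card_pos.1 (by omega : 0 < A.card)
  by_contra hcon
  push Not at hcon
  have hsub : C.N s a ⊆ B := by
    intro w hw
    rcases mem_union.1 (h.hA a ha hw) with h' | h'
    · exact absurd (C.mem_N.1 hw) (hcon a ha w h')
    · exact h'
  have h1 := card_le_card hsub
  have h2 := C.card_N s a
  omega

end even

end Ctx

end Pool.Agent.H136.AntiPath
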