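import Pool.Agent.H136.AntiEven

/-! From a longest antidirected path to a closed system. -/

set_option autoImplicit false

namespace Pool.Agent.H136.AntiPath

open Finset Pool.Agent.H136.CycList

/-- the two colours of an alternating list are balanced -/
lemma balanced {G : Type*} (σ : G → Bool) : ∀ (l : List G) (c : Bool),
    l.IsChain (fun x y => σ x ≠ σ y) → (∀ x ∈ l.head?, σ x = c) → ∀ z ∈ l.getLast?,
    (l.filter (fun x => σ x = c)).length =
      (l.filter (fun x => σ x = !c)).length + if σ z = c then 1 else 0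
  | [], _, _, _, z, hz => by simp at hz
  | [a], c, _, h2, z, hz => by
    have ha : σ a = c := h2 a (by simp)
    simp only [List.getLast?_singleton, Option.mem_def, Option.some.injEq] at hz
    subst hz
    rw [← ha]
    cases h : σ a <;> simp [List.filter, h]
  | a :: b :: l, c, h1, h2, z, hz => by
    have ha : σ a = c := h2 a (by simp)
    rw [List.isChain_cons_cons] at h1
    have hb : σ b = !c := by
      have := h1.1
      rw [ha] at this
      revert this
      cases σ b <;> cases c <;> simp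
    have ih := balanced σ (b :: l) (!c) h1.2 (by simpa using hb) z (by simpa using hz)
    rw [Bool.not_not] at ih
    have e1 : ((a :: b :: l).filter (fun x => σ x = c)).length =
        ((b :: l).filter (fun x => σ x = c)).length + 1 := by
      rw [List.filter_cons_of_pos (by simpa using ha)]
      simp
    have e2 : ((a :: b :: l).filter (fun x => σ x = !c)).length =
        ((b :: l).filter (fun x => σ x = !c)).length := by
      rw [List.filter_cons_of_neg (by rw [ha]; simp)]
    rw [e1, e2, ih]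
    cases σ z <;> cases c <;> simp

variable {V : Type*} [Fintype V] [DecidableEq V]

namespace Ctx

variable {C : Ctx V}

lemma filter_card {s c : Bool} {X : Finset V} {l : List (V × Bool)}
    (h : ∀ v, (v, c) ∈ l ↔ v ∈ X) (hs : s = c) :
    (l.toFinset.filter (fun g => g.2 = s)).card = X.card := by
  subst hs
  have : l.toFinset.filter (fun g => g.2 = s) = X.image (fun v => (v, s)) := by
    ext ⟨v, b⟩
    simp only [mem_filter, List.mem_toFinset, mem_image, Prod.mk.injEq]
    constructor
    · rintro ⟨h1, rfl⟩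
      exact ⟨v, (h v).1 h1, rfl, rfl⟩
    · rintro ⟨w, hw, rfl, rfl⟩
      exact ⟨(h w).2 hw, rfl⟩
  rw [this, card_image_of_injective _ (fun a b h => (Prod.mk.inj h).1)]

/-- the two sides of an antidirected path -/
lemma sides {l : List (V × Bool)} (hl : C.AP l) {x z : V} {s t : Bool}
    (hx : (x, s) ∈ l.head?) (hz : (z, t) ∈ l.getLast?) :
    ∃ A B : Finset V, Disjoint A B ∧
      (∀ g, g ∈ l ↔ (g.2 = s ∧ g.1 ∈ A) ∨ (g.2 = (!s) ∧ g.1 ∈ B)) ∧
      A.card + B.card = l.length ∧ A.card = B.card + if t = s then 1 else 0 := by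
  set A : Finset V := ((l.filter (fun g => g.2 = s)).map Prod.fst).toFinset with hA
  set B : Finset V := ((l.filter (fun g => g.2 = !s)).map Prod.fst).toFinset with hB
  have hmA : ∀ v, v ∈ A ↔ (v, s) ∈ l := by
    intro v
    rw [hA, List.mem_toFinset, List.mem_map]
    constructor
    · rintro ⟨g, hg, rfl⟩
      rw [List.mem_filter] at hg
      have : g.2 = s := by simpa using hg.2
      rw [← this]
      exact hg.1
    · intro h
      exact ⟨(v, s), List.mem_filter.2 ⟨h, by simp⟩, rfl⟩
  have hmB : ∀ v, v ∈ B ↔ (v, !s) ∈ l := by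
    intro v
    rw [hB, List.mem_toFinset, List.mem_map]
    constructor
    · rintro ⟨g, hg, rfl⟩
      rw [List.mem_filter] at hg
      have : g.2 = !s := by simpa using hg.2
      rw [← this]
      exact hg.1
    · intro h
      exact ⟨(v, !s), List.mem_filter.2 ⟨h, by simp⟩, rfl⟩
  have hmem : ∀ g, g ∈ l ↔ (g.2 = s ∧ g.1 ∈ A) ∨ (g.2 = (!s) ∧ g.1 ∈ B) := by
    rintro ⟨v, b⟩
    rw [hmA, hmB]
    rcases Bool.eq_or_eq_not b s with rfl | rfl
    · simp
    · simp
  have hd : Disjoint A B := by
    rw [disjoint_left]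
    intro v h1 h2
    rw [hmA] at h1
    rw [hmB] at h2
    have := List.inj_on_of_nodup_map hl.2 h1 h2 rfl
    simp at this
  have cA : A.card = (l.filter (fun g => g.2 = s)).length := by
    rw [hA, List.toFinset_card_of_nodup, List.length_map]
    exact hl.2.sublist (List.filter_sublist.map _)
  have cB : B.card = (l.filter (fun g => g.2 = !s)).length := by
    rw [hB, List.toFinset_card_of_nodup, List.length_map]
    exact hl.2.sublist (List.filter_sublist.map _)
  refine ⟨A, B, hd, hmem, (length_eq hd hl.2 hmem).symm, ?_⟩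
  rw [cA, cB]
  refine balanced Prod.snd l s hl.alt ?_ (z, t) hz
  intro g hg
  rw [Option.mem_def] at hx hg
  rw [hx, Option.some.injEq] at hg
  rw [← hg]

lemma sys_of_cyc {s : Bool} {A B : Finset V} (hd : Disjoint A B) (hc : C.CycOn s A B)
    (hM : C.M = A.card + B.card) : C.Sys s A B := by
  refine ⟨hd, ?_, ?_⟩
  · intro a ha y hy
    by_contra hyW
    rw [C.mem_N] at hy
    obtain ⟨t, ht, hlen, hmem⟩ := hc.pathFrom hd ha
    have h1 : C.AP ((y, !s) :: (a, s) :: t) := by
      refine ht.cons (by simpa [adj] using C.symm _ _ _ hy) ?_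
      intro g hg hgy
      simp only at hgy
      rcases (hmem g).1 hg with h | h
      · exact hyW (mem_union_left _ (hgy ▸ h.2))
      · exact hyW (mem_union_right _ (hgy ▸ h.2))
    have := h1.le
    rw [List.length_cons, hlen] at this
    omega
  · intro b hb y hy
    by_contra hyW
    rw [C.mem_N] at hy
    obtain ⟨t, ht, hlen, hmem⟩ := hc.pathFrom' hd hb
    have h1 : C.AP ((y, s) :: (b, !s) :: t) := by
      refine ht.cons (by simpa [adj] using C.symm' hy) ?_
      intro g hg hgy
      simp only at hgy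
      rcases (hmem g).1 hg with h | h
      · exact hyW (mem_union_left _ (hgy ▸ h.2))
      · exact hyW (mem_union_right _ (hgy ▸ h.2))
    have := h1.le
    rw [List.length_cons, hlen] at this
    omega

/-- the ends of a longest antidirected path have their neighbours on the path -/
lemma head_closed {l : List (V × Bool)} (hl : C.AP l) (hlen : l.length = C.M) {x : V} {s : Bool}
    (hx : (x, s) ∈ l.head?) {A B : Finset V}
    (hmem : ∀ g, g ∈ l ↔ (g.2 = s ∧ g.1 ∈ A) ∨ (g.2 = (!s) ∧ g.1 ∈ B)) : C.N s x ⊆ A ∪ B := by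
  intro y hy
  by_contra hyW
  rw [C.mem_N] at hy
  have h1 : C.AP ((y, !s) :: l) := by
    refine hl.cons ?_ ?_
    · intro g hg
      rw [Option.mem_def] at hx hg
      rw [hx, Option.some.injEq] at hg
      subst hg
      simpa [adj] using C.symm _ _ _ hy
    · intro g hg hgy
      simp only at hgy
      rcases (hmem g).1 hg with h | h
      · exact hyW (mem_union_left _ (hgy ▸ h.2))
      · exact hyW (mem_union_right _ (hgy ▸ h.2))
  have := h1.le
  rw [List.length_cons, hlen] at this
  omega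

lemma last_closed {l : List (V × Bool)} (hl : C.AP l) (hlen : l.length = C.M) {x : V} {s t : Bool}
    (hx : (x, t) ∈ l.getLast?) {A B : Finset V}
    (hmem : ∀ g, g ∈ l ↔ (g.2 = s ∧ g.1 ∈ A) ∨ (g.2 = (!s) ∧ g.1 ∈ B)) : C.N t x ⊆ A ∪ B := by
  have hx' : (x, t) ∈ l.reverse.head? := by rwa [List.head?_reverse]
  rcases Bool.eq_or_eq_not t s with rfl | rfl
  · exact head_closed hl.reverse (by simpa using hlen) hx' (fun g => by
      rw [List.mem_reverse]
      exact hmem g)
  · rw [union_comm]
    refine head_closed hl.reverse (by simpa using hlen) hx' (fun g => ?_)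
    rw [List.mem_reverse, hmem, Bool.not_not, or_comm]

/-- the even number of vertices -/
lemma odd_init {p : ℕ} (hM : C.M = 2 * p) (hδ : 3 * p ≤ 2 * C.δ) {l : List (V × Bool)}
    (hl : C.AP l) (hlen : l.length = C.M) {x z : V} {s t : Bool}
    (hx : (x, s) ∈ l.head?) (hz : (z, t) ∈ l.getLast?) (hst : t ≠ s) :
    ∃ A B : Finset V, C.Sys s A B ∧ A.card = p ∧ B.card = p := by
  obtain ⟨A, B, hd, hmem, hcard, hbal⟩ := sides hl hx hz
  rw [if_neg hst] at hbal
  have hA : A.card = p := by omega
  have hB : B.card = p := by omega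
  have hts : t = !s := by
    revert hst
    cases t <;> cases s <;> simp
  subst hts
  have hW : (A ∪ B).card = 2 * p := by rw [card_union_of_disjoint hd]; omega
  have hxl : (x, s) ∈ l := List.mem_of_mem_head? hx
  have hzl : (z, !s) ∈ l := List.mem_of_mem_getLast? hz
  have hxA : x ∈ A := by
    rcases (hmem _).1 hxl with h | h
    · exact h.2
    · simp at h
  have hzB : z ∈ B := by
    rcases (hmem _).1 hzl with h | h
    · simp at h
    · exact h.2
  have d1 := deg_in (C := C) (s := s) (x := x) (W := A ∪ B) (S := B) (mem_union_left _ hxA)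
    (head_closed hl hlen hx hmem) subset_union_right (disjoint_left.1 hd hxA)
  have d2 := deg_in (C := C) (s := !s) (x := z) (W := A ∪ B) (S := A) (mem_union_right _ hzB)
    (last_closed hl hlen hz hmem) subset_union_left (fun h => disjoint_left.1 hd h hzB)
  have hinj : ∀ c : Bool, Function.Injective (fun v : V => (v, c)) :=
    fun c a b h => (Prod.mk.inj h).1
  obtain ⟨u, v, rfl, ⟨a, hau, haQ⟩, ⟨b, hbv, hbP⟩⟩ := split Prod.snd hl.nodup hl.alt hx hz
    (by simp) ((C.N s x ∩ B).image (fun v => (v, !s))) ((C.N (!s) z ∩ A).image (fun v => (v, s)))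
    (by
      intro g hg
      obtain ⟨v, hv, rfl⟩ := mem_image.1 hg
      exact ⟨(hmem _).2 (Or.inr ⟨rfl, (mem_inter.1 hv).2⟩), by simp⟩)
    (by
      intro g hg
      obtain ⟨v, hv, rfl⟩ := mem_image.1 hg
      exact ⟨(hmem _).2 (Or.inl ⟨rfl, (mem_inter.1 hv).2⟩), rfl⟩)
    (by
      rw [card_image_of_injective _ (hinj _), card_image_of_injective _ (hinj _),
        filter_card (X := A) (fun v => by simp [hmem]) rfl]
      omega)
  have hu : u ≠ [] := by
    rintro rfl
    simp at hau
  have hv : v ≠ [] := by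
    rintro rfl
    simp at hbv
  rw [List.head?_append_of_ne_nil _ hu] at hx
  rw [List.getLast?_append_of_ne_nil _ hv] at hz
  have hch := List.isChain_append.1 hl.1
  have hcyc : Cyc C.adj (u ++ v.reverse) := by
    refine cyc_switch C.adj_symm hch.1 hch.2.1 ?_ ?_ hu hv
    · intro a' ha' b' hb'
      rw [Option.mem_def] at ha' hb' hau hz
      rw [hau, Option.some.injEq] at ha'
      rw [hz, Option.some.injEq] at hb'
      subst ha' hb'
      obtain ⟨w, hw, rfl⟩ := mem_image.1 haQ
      rw [mem_inter, C.mem_N] at hw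
      exact ⟨rfl, C.symm' hw.1⟩
    · intro a' ha' b' hb'
      rw [Option.mem_def] at ha' hb' hbv hx
      rw [hbv, Option.some.injEq] at ha'
      rw [hx, Option.some.injEq] at hb'
      subst ha' hb'
      obtain ⟨w, hw, rfl⟩ := mem_image.1 hbP
      rw [mem_inter, C.mem_N] at hw
      exact ⟨by simp, C.symm _ _ _ hw.1⟩
  have hperm : (u ++ v.reverse).Perm (u ++ v) := List.Perm.append_left _ (List.reverse_perm v)
  have hCyc : C.CycOn s A B := ⟨u ++ v.reverse, hcyc, (hperm.map Prod.fst).nodup_iff.2 hl.2,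
    fun g => hperm.mem_iff.trans (hmem g)⟩
  exact ⟨A, B, sys_of_cyc hd hCyc (by omega), hA, hB⟩

section even

variable {n : ℕ} (hM : C.M = 2 * n + 1) (hδ : 3 * n + 2 ≤ 2 * C.δ) {s : Bool} {A B : Finset V}
  (hd : Disjoint A B) (hA : A.card = n) (hB : B.card = n)

include hM hd hA hB in
lemma even_out (hc : C.CycOn s A B) {z b : V} (hz : z ∉ A ∪ B) (hb : b ∈ B) (he : C.e s z b) :
    C.N s z ⊆ A ∪ B := by
  intro y hy
  rw [C.mem_N] at hy
  by_contra hyW
  obtain ⟨t, ht, hlen, hmem⟩ := hc.pathFrom' hd hb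
  have hin : ∀ g ∈ (b, !s) :: t, g.1 ∈ A ∪ B := by
    intro g hg
    rcases (hmem g).1 hg with h | h
    · exact mem_union_left _ h.2
    · exact mem_union_right _ h.2
  have h1 : C.AP ((z, s) :: (b, !s) :: t) := by
    refine ht.cons (by simpa [adj] using he) ?_
    intro g hg hgz
    simp only at hgz
    exact hz (hgz ▸ hin g hg)
  have h2 : C.AP ((y, !s) :: (z, s) :: (b, !s) :: t) := by
    refine h1.cons (by simpa [adj] using C.symm _ _ _ hy) ?_
    intro g hg hgz
    rcases List.mem_cons.1 hg with rfl | hg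
    · simp only at hgz
      subst hgz
      exact C.irr _ _ hy
    · simp only at hgz
      exact hyW (hgz ▸ hin g hg)
  have := h2.le
  rw [List.length_cons, List.length_cons, hlen] at this
  omega

include hM hδ hd hA hB in
/-- no two different outside vertices of opposite signs -/
lemma even_E1 (hc : C.CycOn s A B) {z y a b : V} (hz : z ∉ A ∪ B) (hy : y ∉ A ∪ B) (hzy : z ≠ y)
    (ha : a ∈ A) (hb : b ∈ B) (hzb : C.e s z b) (hya : C.e (!s) y a) : False := by
  have hW : (A ∪ B).card = 2 * n := by rw [card_union_of_disjoint hd]; omega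
  have h1 := even_out hM hd hA hB hc hz hb hzb
  have h2 := even_out (s := !s) hM hd.symm hB hA hc.swap (z := y) (b := a)
    (by rwa [union_comm]) ha hya
  rw [union_comm] at h2
  have d1 := deg_out (C := C) (S := B) h1 subset_union_right
  have d2 := deg_out (C := C) (S := A) h2 subset_union_left
  obtain ⟨l, hl1, hl2, hl3⟩ := hc
  obtain ⟨t, ht, hp⟩ := hl1.start ((hl3 (b, !s)).2 (Or.inr ⟨rfl, hb⟩))
  have hmem : ∀ g, g ∈ (b, !s) :: t ↔ (g.2 = s ∧ g.1 ∈ A) ∨ (g.2 = (!s) ∧ g.1 ∈ B) :=
    fun g => (hp.mem_iff).trans (hl3 g)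
  have hAP : C.AP ((b, !s) :: t) := ⟨ht.1, (hp.map Prod.fst).nodup_iff.2 hl2⟩
  generalize hL : (b, !s) :: t = L at *
  have hx : (b, !s) ∈ L.head? := by rw [← hL]; simp
  have hLne : L ≠ [] := by
    rintro rfl
    simp at hx
  obtain ⟨⟨z0, c0⟩, hz0⟩ : ∃ z0, z0 ∈ L.getLast? :=
    ⟨L.getLast hLne, by rw [List.getLast?_eq_getLast_of_ne_nil hLne]; rfl⟩
  have hc0 : c0 = s := by
    have := (ht.2 _ hz0 _ hx).1
    simp only at this
    revert this
    cases c0 <;> cases s <;> simp
  subst hc0
  have hinj : ∀ c : Bool, Function.Injective (fun v : V => (v, c)) :=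
    fun c a b h => (Prod.mk.inj h).1
  obtain ⟨u, v, rfl, ⟨g1, hg1u, hg1⟩, ⟨g2, hg2v, hg2⟩⟩ := split Prod.snd hAP.nodup hAP.alt hx hz0
    (by simp) ((C.N (!c0) y ∩ A).image (fun v => (v, c0)))
    ((C.N c0 z ∩ B).image (fun v => (v, !c0)))
    (by
      intro g hg
      obtain ⟨v, hv, rfl⟩ := mem_image.1 hg
      exact ⟨(hmem _).2 (Or.inl ⟨rfl, (mem_inter.1 hv).2⟩), by simp⟩)
    (by
      intro g hg
      obtain ⟨v, hv, rfl⟩ := mem_image.1 hg
      exact ⟨(hmem _).2 (Or.inr ⟨rfl, (mem_inter.1 hv).2⟩), rfl⟩)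
    (by
      rw [card_image_of_injective _ (hinj _), card_image_of_injective _ (hinj _),
        filter_card (X := B) (fun v => by simp [hmem]) rfl]
      omega)
  have hu : u ≠ [] := by
    rintro rfl
    simp at hg1u
  have hv : v ≠ [] := by
    rintro rfl
    simp at hg2v
  have hrot := ht.rot
  have hperm : (v ++ u).Perm (u ++ v) := List.perm_append_comm
  have hAP' : C.AP (v ++ u) := ⟨hrot.1, (hperm.map Prod.fst).nodup_iff.2 hAP.2⟩
  have hin : ∀ g ∈ v ++ u, g.1 ∈ A ∪ B := by
    intro g hg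
    rcases (hmem g).1 (hperm.mem_iff.1 hg) with h | h
    · exact mem_union_left _ h.2
    · exact mem_union_right _ h.2
  have h3 : C.AP ((y, !c0) :: (v ++ u)) := by
    refine hAP'.cons ?_ ?_
    · intro g hg
      rw [List.head?_append_of_ne_nil _ hv, Option.mem_def] at hg
      rw [Option.mem_def] at hg2v
      rw [hg2v, Option.some.injEq] at hg
      subst hg
      obtain ⟨w, hw, rfl⟩ := mem_image.1 hg2
      rw [mem_inter, C.mem_N] at hw
      exact ⟨by simp, hw.1⟩
    · intro g hg hgy
      simp only at hgy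
      exact hy (hgy ▸ hin g hg)
  have h4 : C.AP ((y, !c0) :: (v ++ u) ++ [(z, c0)]) := by
    refine h3.concat ?_ ?_
    · intro g hg
      rw [← List.cons_append, List.getLast?_append_of_ne_nil _ hu, Option.mem_def] at hg
      rw [Option.mem_def] at hg1u
      rw [hg1u, Option.some.injEq] at hg
      subst hg
      obtain ⟨w, hw, rfl⟩ := mem_image.1 hg1
      rw [mem_inter, C.mem_N] at hw
      exact ⟨by simp, C.symm _ _ _ hw.1⟩
    · intro g hg hgz
      simp only at hgz
      rcases List.mem_cons.1 hg with rfl | hg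
      · exact hzy hgz.symm
      · exact hz (hgz ▸ hin g hg)
  have h5 := h4.le
  have h6 : (v ++ u).length = 2 * n := by
    rw [hperm.length_eq, length_eq hd hAP.2 hmem]
    omega
  rw [List.length_append, List.length_cons, h6, List.length_singleton] at h5
  omega

include hM hδ hd hA hB in
/-- no two different outside vertices of the same sign -/
lemma even_E2 (hc : C.CycOn s A B) {z1 z2 b1 b2 : V} (hz1 : z1 ∉ A ∪ B) (hz2 : z2 ∉ A ∪ B)
    (hne : z1 ≠ z2) (hb1 : b1 ∈ B) (hb2 : b2 ∈ B) (he1 : C.e s z1 b1) (he2 : C.e s z2 b2) :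
    False := by
  have hW : (A ∪ B).card = 2 * n := by rw [card_union_of_disjoint hd]; omega
  have h1 := even_out hM hd hA hB hc hz1 hb1 he1
  have h2 := even_out hM hd hA hB hc hz2 hb2 he2
  have d1 := deg_out (C := C) (S := B) h1 subset_union_right
  have d1' := deg_out (C := C) (S := A) h1 subset_union_left
  have d2 := deg_out (C := C) (S := B) h2 subset_union_right
  obtain ⟨l, hl1, hl2, hl3⟩ := hc
  obtain ⟨t, ht, hp⟩ := hl1.start ((hl3 (b1, !s)).2 (Or.inr ⟨rfl, hb1⟩))
  have hmem : ∀ g, g ∈ (b1, !s) :: t ↔ (g.2 = s ∧ g.1 ∈ A) ∨ (g.2 = (!s) ∧ g.1 ∈ B) :=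
    fun g => (hp.mem_iff).trans (hl3 g)
  have hAP : C.AP ((b1, !s) :: t) := ⟨ht.1, (hp.map Prod.fst).nodup_iff.2 hl2⟩
  generalize hL : (b1, !s) :: t = L at *
  have hx : (b1, !s) ∈ L.head? := by rw [← hL]; simp
  have hLne : L ≠ [] := by
    rintro rfl
    simp at hx
  obtain ⟨⟨z0, c0⟩, hz0⟩ : ∃ z0, z0 ∈ L.getLast? :=
    ⟨L.getLast hLne, by rw [List.getLast?_eq_getLast_of_ne_nil hLne]; rfl⟩
  have hc0 : c0 = s := by
    have := (ht.2 _ hz0 _ hx).1
    simp only at this
    revert this
    cases c0 <;> cases s <;> simp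
  subst hc0
  have hinj : ∀ c : Bool, Function.Injective (fun v : V => (v, c)) :=
    fun c a b h => (Prod.mk.inj h).1
  obtain ⟨u, v, rfl, ⟨g1, hg1u, hg1⟩, ⟨g2, hg2v, hg2⟩⟩ := split Prod.snd hAP.nodup hAP.alt hx hz0
    (by simp) ((C.N c0 z1 ∩ A).image (fun v => (v, c0)))
    ((C.N c0 z1 ∩ B).image (fun v => (v, !c0)))
    (by
      intro g hg
      obtain ⟨v, hv, rfl⟩ := mem_image.1 hg
      exact ⟨(hmem _).2 (Or.inl ⟨rfl, (mem_inter.1 hv).2⟩), by simp⟩)
    (by
      intro g hg
      obtain ⟨v, hv, rfl⟩ := mem_image.1 hg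
      exact ⟨(hmem _).2 (Or.inr ⟨rfl, (mem_inter.1 hv).2⟩), rfl⟩)
    (by
      rw [card_image_of_injective _ (hinj _), card_image_of_injective _ (hinj _),
        filter_card (X := B) (fun v => by simp [hmem]) rfl]
      omega)
  have hu : u ≠ [] := by
    rintro rfl
    simp at hg1u
  obtain ⟨a, ha, rfl⟩ := mem_image.1 hg2
  obtain ⟨b, hb, rfl⟩ := mem_image.1 hg1
  rw [mem_inter, C.mem_N] at ha hb
  obtain ⟨v', rfl⟩ : ∃ v', v = (a, c0) :: v' := by
    cases v with
    | nil => simp at hg2v
    | cons g v' =>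
      simp only [List.head?_cons, Option.mem_def, Option.some.injEq] at hg2v
      exact ⟨v', by rw [hg2v]⟩
  -- the cycle, started at `(a, c0)`
  have hrot := ht.rot
  have hperm : ((a, c0) :: v' ++ u).Perm (u ++ (a, c0) :: v') := List.perm_append_comm
  have hAPr : C.AP ((a, c0) :: (v' ++ u)) :=
    ⟨by simpa using hrot.1, by simpa using (hperm.map Prod.fst).nodup_iff.2 hAP.2⟩
  have hmemr : ∀ g, g ∈ (a, c0) :: (v' ++ u) ↔
      (g.2 = c0 ∧ g.1 ∈ A) ∨ (g.2 = (!c0) ∧ g.1 ∈ B) := fun g => by
    rw [← hmem g, ← hperm.mem_iff]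
    simp
  have hlenr : ((a, c0) :: (v' ++ u)).length = 2 * n := by
    rw [length_eq hd hAPr.2 hmemr]
    omega
  have hlastu : (b, !c0) ∈ (v' ++ u).getLast? := by
    rw [List.getLast?_append_of_ne_nil _ hu]
    exact hg1u
  have hKne : v' ++ u ≠ [] := by
    intro h
    exact hu (List.append_eq_nil_iff.1 h).2
  have hAPK : C.AP (v' ++ u) := ⟨hAPr.1.tail, (List.nodup_cons.1 hAPr.2).2⟩
  have hanotin : ∀ g ∈ v' ++ u, g.1 ≠ a := by
    intro g hg hga
    have := (List.nodup_cons.1 hAPr.2).1
    exact this (List.mem_map.2 ⟨g, hg, hga⟩)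
  generalize hKdef : v' ++ u = K at *
  clear hKdef hrot hperm hmem hAP hg2v hg1u hu hz0 hx hLne ht hp
  -- the reversed path
  have hKin : ∀ g ∈ K, g.1 ∈ A ∪ B := by
    intro g hg
    rcases (hmemr g).1 (List.mem_cons_of_mem _ hg) with h | h
    · exact mem_union_left _ h.2
    · exact mem_union_right _ h.2
  have hL' : C.AP ((z1, c0) :: K.reverse) := by
    refine hAPK.reverse.cons ?_ ?_
    · intro g hg
      rw [List.head?_reverse, Option.mem_def] at hg
      rw [Option.mem_def] at hlastu
      rw [hlastu, Option.some.injEq] at hg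
      subst hg
      exact ⟨rfl, hb.1⟩
    · intro g hg hgz
      simp only at hgz
      exact hz1 (hgz ▸ hKin g (by simpa using hg))
  have hLL : C.AP ((a, !c0) :: (z1, c0) :: K.reverse) := by
    refine hL'.cons (by simpa [adj] using C.symm _ _ _ ha.1) ?_
    intro g hg hga
    rcases List.mem_cons.1 hg with rfl | hg
    · exact hz1 (mem_union_left _ (by simp only at hga; rw [hga]; exact ha.2))
    · exact hanotin g (by simpa using hg) hga
  obtain ⟨⟨y0, c1⟩, hy0⟩ : ∃ y0, y0 ∈ K.head? := by
    cases K with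
    | nil => exact absurd rfl hKne
    | cons g K' => exact ⟨g, by simp⟩
  have hc1 : c1 = !c0 := by
    have := hAPr.1.rel_head? hy0
    exact this.1
  subst hc1
  have hy0K : (y0, !c0) ∈ K := List.mem_of_mem_head? hy0
  have hy0B : y0 ∈ B := by
    rcases (hmemr _).1 (List.mem_cons_of_mem _ hy0K) with h | h
    · simp at h
    · exact h.2
  have hlastL : (y0, !c0) ∈ ((z1, c0) :: K.reverse).getLast? := by
    rw [show (z1, c0) :: K.reverse = [(z1, c0)] ++ K.reverse from rfl,
      List.getLast?_append_of_ne_nil _ (by simpa using hKne), List.getLast?_reverse]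
    exact hy0
  have hLLlen : ((a, !c0) :: (z1, c0) :: K.reverse).length = C.M := by
    simp only [List.length_cons, List.length_reverse] at hlenr ⊢
    omega
  set S : Finset V := insert z1 (A.erase a) with hS
  have hz1A : z1 ∉ A := fun h => hz1 (mem_union_left _ h)
  have hz1B : z1 ∉ B := fun h => hz1 (mem_union_right _ h)
  have hAB1 : ∀ v, v ∈ A → v ∉ B := fun v hv => disjoint_left.1 hd hv
  have hScard : S.card = n := by
    have : 0 < A.card := card_pos.2 ⟨a, ha.2⟩
    rw [hS, card_insert_of_notMem (fun h => hz1A (mem_of_mem_erase h)), card_erase_of_mem ha.2]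
    omega
  have hSd : Disjoint S B := by
    rw [disjoint_left]
    intro v hv hv'
    rcases mem_insert.1 hv with rfl | hv
    · exact hz1B hv'
    · exact hAB1 v (mem_of_mem_erase hv) hv'
  have hmem' : ∀ g, g ∈ (z1, c0) :: K.reverse ↔
      (g.2 = c0 ∧ g.1 ∈ S) ∨ (g.2 = (!c0) ∧ g.1 ∈ B) := by
    rintro ⟨v, c⟩
    rw [List.mem_cons, List.mem_reverse]
    have hK : (v, c) ∈ K ↔ (v, c) ∈ (a, c0) :: K ∧ v ≠ a := by
      constructor
      · intro h
        exact ⟨List.mem_cons_of_mem _ h, hanotin _ h⟩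
      · rintro ⟨h, hne⟩
        rcases List.mem_cons.1 h with h | h
        · exact absurd (Prod.mk.inj h).1 hne
        · exact h
    rw [hK, hmemr, hS, mem_insert, mem_erase, Prod.mk.injEq]
    constructor
    · rintro (⟨rfl, rfl⟩ | ⟨⟨h1, h2⟩ | ⟨h1, h2⟩, h3⟩)
      · exact Or.inl ⟨rfl, Or.inl rfl⟩
      · exact Or.inl ⟨h1, Or.inr ⟨h3, h2⟩⟩
      · exact Or.inr ⟨h1, h2⟩
    · rintro (⟨q1, q0 | ⟨q2, q3⟩⟩ | ⟨q1, q2⟩)
      · exact Or.inl ⟨q0, q1⟩
      · exact Or.inr ⟨Or.inl ⟨q1, q3⟩, q2⟩
      · refine Or.inr ⟨Or.inr ⟨q1, q2⟩, ?_⟩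
        intro hva
        simp only at q2
        rw [hva] at q2
        exact hAB1 a ha.2 q2
  have hy0N : C.N (!c0) y0 ⊆ insert z1 (A ∪ B) := by
    intro w hw
    rw [C.mem_N] at hw
    by_contra hwW
    rw [mem_insert, not_or] at hwW
    have h7 : C.AP (((a, !c0) :: (z1, c0) :: K.reverse) ++ [(w, c0)]) := by
      refine hLL.concat ?_ ?_
      · intro g hg
        rw [show (a, !c0) :: (z1, c0) :: K.reverse = [(a, !c0)] ++ ((z1, c0) :: K.reverse) from rfl,
          List.getLast?_append_of_ne_nil _ (by simp), Option.mem_def] at hg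
        rw [Option.mem_def] at hlastL
        rw [hlastL, Option.some.injEq] at hg
        subst hg
        exact ⟨by simp, hw⟩
      · intro g hg hgw
        rcases List.mem_cons.1 hg with rfl | hg
        · exact hwW.2 (mem_union_left _ (by simp only at hgw; rw [← hgw]; exact ha.2))
        simp only at hgw
        rcases List.mem_cons.1 hg with rfl | hg
        · exact hwW.1 hgw.symm
        · exact hwW.2 (hgw ▸ hKin g (by simpa using hg))
    have := h7.le
    rw [List.length_append, hLLlen, List.length_singleton] at this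
    omega
  have hWcard : (insert z1 (A ∪ B)).card = 2 * n + 1 := by
    rw [card_insert_of_notMem hz1]
    omega
  have d3 := deg_in (C := C) (s := !c0) (x := y0) (W := insert z1 (A ∪ B)) (S := S)
    (mem_insert_of_mem (mem_union_right _ hy0B)) hy0N
    (by
      intro v hv
      rcases mem_insert.1 hv with rfl | hv
      · exact mem_insert_self _ _
      · exact mem_insert_of_mem (mem_union_left _ (mem_of_mem_erase hv)))
    (fun h => disjoint_left.1 hSd h hy0B)
  obtain ⟨u', v'', hsp, ⟨g3, hg3u, hg3⟩, ⟨g4, hg4v, hg4⟩⟩ := split Prod.snd hL'.nodup hL'.alt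
    (x0 := (z1, c0)) (by simp) hlastL (by simp) ((C.N c0 z2 ∩ B).image (fun v => (v, !c0)))
    ((C.N (!c0) y0 ∩ S).image (fun v => (v, c0)))
    (by
      intro g hg
      obtain ⟨v, hv, rfl⟩ := mem_image.1 hg
      exact ⟨(hmem' _).2 (Or.inr ⟨rfl, (mem_inter.1 hv).2⟩), by simp⟩)
    (by
      intro g hg
      obtain ⟨v, hv, rfl⟩ := mem_image.1 hg
      exact ⟨(hmem' _).2 (Or.inl ⟨rfl, (mem_inter.1 hv).2⟩), rfl⟩)
    (by
      rw [card_image_of_injective _ (hinj _), card_image_of_injective _ (hinj _),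
        filter_card (X := S) (fun v => by simp [hmem']) rfl]
      omega)
  have hu' : u' ≠ [] := by
    rintro rfl
    simp at hg3u
  have hv'' : v'' ≠ [] := by
    rintro rfl
    simp at hg4v
  have hch := List.isChain_append.1 (hsp ▸ hL'.1)
  have hheadu : u'.head? = some (z1, c0) := by
    rw [← List.head?_append_of_ne_nil u' (l₂ := v'') hu', ← hsp]
    rfl
  have hlastv : v''.getLast? = some (y0, !c0) := by
    rw [← List.getLast?_append_of_ne_nil u' (l₂ := v'') hv'', ← hsp]
    exact hlastL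
  have hnewch : (u' ++ v''.reverse).IsChain C.adj := by
    refine List.isChain_append.2 ⟨hch.1, chain_reverse C.adj_symm hch.2.1, ?_⟩
    intro g hg g' hg'
    rw [List.head?_reverse, hlastv, Option.mem_def, Option.some.injEq] at hg'
    rw [Option.mem_def] at hg hg3u
    rw [hg3u, Option.some.injEq] at hg
    subst hg hg'
    obtain ⟨w, hw, rfl⟩ := mem_image.1 hg3
    rw [mem_inter, C.mem_N] at hw
    exact ⟨rfl, C.symm' hw.1⟩
  have hperm2 : (u' ++ v''.reverse).Perm ((z1, c0) :: K.reverse) := by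
    rw [hsp]
    exact List.Perm.append_left _ (List.reverse_perm v'')
  have hnew : C.AP (u' ++ v''.reverse) := ⟨hnewch, (hperm2.map Prod.fst).nodup_iff.2 hL'.2⟩
  have hnew2 : C.AP ((a, !c0) :: (u' ++ v''.reverse)) := by
    refine hnew.cons ?_ ?_
    · intro g hg
      rw [List.head?_append_of_ne_nil _ hu', hheadu, Option.mem_def, Option.some.injEq] at hg
      subst hg
      exact ⟨by simp, C.symm _ _ _ ha.1⟩
    · intro g hg hga
      have := hperm2.mem_iff.1 hg
      rcases List.mem_cons.1 this with rfl | hg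
      · exact hz1A (by simp only at hga; rw [hga]; exact ha.2)
      · exact hanotin g (by simpa using hg) hga
  have hnew3 : C.AP (((a, !c0) :: (u' ++ v''.reverse)) ++ [(z2, c0)]) := by
    refine hnew2.concat ?_ ?_
    · intro g hg
      rw [← List.cons_append, List.getLast?_append_of_ne_nil _ (by simpa using hv''),
        List.getLast?_reverse, Option.mem_def] at hg
      rw [Option.mem_def] at hg4v
      rw [hg4v, Option.some.injEq] at hg
      subst hg
      obtain ⟨w, hw, rfl⟩ := mem_image.1 hg4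
      rw [mem_inter, C.mem_N] at hw
      exact ⟨by simp, C.symm _ _ _ hw.1⟩
    · intro g hg hgz
      rcases List.mem_cons.1 hg with rfl | hg
      · exact hz2 (mem_union_left _ (by simp only at hgz; rw [← hgz]; exact ha.2))
      · have := hperm2.mem_iff.1 hg
        simp only at hgz
        rcases List.mem_cons.1 this with rfl | hg
        · exact hne hgz
        · exact hz2 (hgz ▸ hKin g (by simpa using hg))
  have h8 := hnew3.le
  rw [List.length_append, List.length_cons, hperm2.length_eq, List.length_singleton] at h8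
  simp only [List.length_cons] at hLLlen h8
  omega

end even

/-- an odd number of vertices -/
lemma even_init {n : ℕ} (hM : C.M = 2 * n + 1) (hδ : 3 * n + 2 ≤ 2 * C.δ) {l : List (V × Bool)}
    (hl : C.AP l) (hlen : l.length = C.M) {x z : V} {s : Bool}
    (hx : (x, s) ∈ l.head?) (hz : (z, s) ∈ l.getLast?) :
    ∃ A B : Finset V, C.Sys s A B ∧ A.card = n + 1 ∧ B.card = n := by
  obtain ⟨A, B, hd, hmem, hcard, hbal⟩ := sides hl hx hz
  rw [if_pos rfl] at hbal
  have hA : A.card = n + 1 := by omega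
  have hB : B.card = n := by omega
  have hW : (A ∪ B).card = 2 * n + 1 := by rw [card_union_of_disjoint hd]; omega
  have hxl : (x, s) ∈ l := List.mem_of_mem_head? hx
  have hzl : (z, s) ∈ l := List.mem_of_mem_getLast? hz
  have hxA : x ∈ A := by
    rcases (hmem _).1 hxl with h | h
    · exact h.2
    · simp at h
  have hzA : z ∈ A := by
    rcases (hmem _).1 hzl with h | h
    · exact h.2
    · simp at h
  have d1 := deg_in (C := C) (s := s) (x := x) (W := A ∪ B) (S := B) (mem_union_left _ hxA)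
    (head_closed hl hlen hx hmem) subset_union_right (disjoint_left.1 hd hxA)
  have d2 := deg_in (C := C) (s := s) (x := z) (W := A ∪ B) (S := B) (mem_union_left _ hzA)
    (last_closed hl hlen hz hmem) subset_union_right (disjoint_left.1 hd hzA)
  have hinj : ∀ c : Bool, Function.Injective (fun v : V => (v, c)) :=
    fun c a b h => (Prod.mk.inj h).1
  have hfc : (l.toFinset.filter (fun g => g.2 ≠ s)).card = n := by
    rw [← hB, ← filter_card (s := !s) (X := B) (l := l) (fun v => by simp [hmem]) rfl]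
    congr 1
    ext g
    simp only [mem_filter, and_congr_right_iff]
    intro _
    cases g.2 <;> cases s <;> simp
  obtain ⟨u, ⟨w1, c1⟩, v, rfl, ⟨a, hau, haQ⟩, ⟨b, hbv, hbP⟩, hc1⟩ := split_odd Prod.snd hl.nodup
    hl.alt hx hz rfl ((C.N s x ∩ B).image (fun v => (v, !s))) ((C.N s z ∩ B).image (fun v => (v, !s)))
    (by
      intro g hg
      obtain ⟨v, hv, rfl⟩ := mem_image.1 hg
      exact ⟨(hmem _).2 (Or.inr ⟨rfl, (mem_inter.1 hv).2⟩), by simp⟩)
    (by
      intro g hg
      obtain ⟨v, hv, rfl⟩ := mem_image.1 hg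
      exact ⟨(hmem _).2 (Or.inr ⟨rfl, (mem_inter.1 hv).2⟩), by simp⟩)
    (by
      rw [card_image_of_injective _ (hinj _), card_image_of_injective _ (hinj _)]
      simp only
      rw [hfc]
      omega)
  simp only at hc1
  subst hc1
  have hu : u ≠ [] := by
    rintro rfl
    simp at hau
  have hv : v ≠ [] := by
    rintro rfl
    simp at hbv
  have hx' : (x, c1) ∈ u.head? := by rwa [List.head?_append_of_ne_nil _ hu] at hx
  have hz' : (z, c1) ∈ v.getLast? := by
    rw [show u ++ (w1, c1) :: v = (u ++ [(w1, c1)]) ++ v by simp,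
      List.getLast?_append_of_ne_nil _ hv] at hz
    exact hz
  have hch := List.isChain_append.1 hl.1
  obtain ⟨bv, hbv', rfl⟩ := mem_image.1 hbP
  obtain ⟨av, hav', rfl⟩ := mem_image.1 haQ
  rw [mem_inter, C.mem_N] at hbv' hav'
  have hwb : C.e c1 w1 bv := (hch.2.1.rel_head? hbv).2
  have hcyc : Cyc C.adj (u ++ v.reverse) := by
    refine cyc_switch C.adj_symm hch.1 hch.2.1.tail ?_ ?_ hu hv
    · intro a' ha' b' hb'
      rw [Option.mem_def] at ha' hb' hau hz'
      rw [hau, Option.some.injEq] at ha'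
      rw [hz', Option.some.injEq] at hb'
      subst ha' hb'
      exact ⟨by simp, C.symm _ _ _ hav'.1⟩
    · intro a' ha' b' hb'
      rw [Option.mem_def] at ha' hb' hbv hx'
      rw [hbv, Option.some.injEq] at ha'
      rw [hx', Option.some.injEq] at hb'
      subst ha' hb'
      exact ⟨by simp, C.symm _ _ _ hbv'.1⟩
  have hperm : ((w1, c1) :: (u ++ v.reverse)).Perm (u ++ (w1, c1) :: v) :=
    (List.Perm.cons _ (List.Perm.append_left _ (List.reverse_perm v))).trans
      List.perm_middle.symm
  have hnd : (((w1, c1) :: (u ++ v.reverse)).map Prod.fst).Nodup :=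
    (hperm.map Prod.fst).nodup_iff.2 hl.2
  rw [List.map_cons, List.nodup_cons] at hnd
  have hw1A : w1 ∈ A := by
    rcases (hmem (w1, c1)).1 (by simp) with h | h
    · exact h.2
    · simp at h
  have hw1B : w1 ∉ B := disjoint_left.1 hd hw1A
  have hmem0 : ∀ g, g ∈ u ++ v.reverse ↔ (g.2 = c1 ∧ g.1 ∈ A.erase w1) ∨ (g.2 = (!c1) ∧ g.1 ∈ B) := by
    rintro ⟨y, c⟩
    have h1 : (y, c) ∈ u ++ v.reverse ↔ (y, c) ∈ u ++ (w1, c1) :: v ∧ y ≠ w1 := by
      rw [← hperm.mem_iff, List.mem_cons]
      constructor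
      · intro h
        refine ⟨Or.inr h, ?_⟩
        rintro rfl
        exact hnd.1 (List.mem_map.2 ⟨_, h, rfl⟩)
      · rintro ⟨h | h, hne⟩
        · exact absurd (Prod.mk.inj h).1 hne
        · exact h
    rw [h1, hmem, mem_erase]
    constructor
    · rintro ⟨h | h, hne⟩
      · exact Or.inl ⟨h.1, hne, h.2⟩
      · exact Or.inr h
    · rintro (⟨q1, q2, q3⟩ | ⟨q1, q2⟩)
      · exact ⟨Or.inl ⟨q1, q3⟩, q2⟩
      · refine ⟨Or.inr ⟨q1, q2⟩, ?_⟩
        rintro rfl
        exact hw1B q2
  have hd0 : Disjoint (A.erase w1) B := disjoint_of_subset_left (erase_subset _ _) hd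
  have hA0 : (A.erase w1).card = n := by rw [card_erase_of_mem hw1A]; omega
  have hCyc : C.CycOn c1 (A.erase w1) B := ⟨u ++ v.reverse, hcyc, hnd.2, hmem0⟩
  have hw1 : w1 ∉ A.erase w1 ∪ B := by
    rw [mem_union, not_or]
    exact ⟨by simp, hw1B⟩
  have hsub : A.erase w1 ∪ B ⊆ A ∪ B := union_subset_union (erase_subset _ _) subset_rfl
  refine ⟨A, B, ⟨hd, ?_, ?_⟩, hA, hB⟩
  · intro a ha
    rcases eq_or_ne a w1 with rfl | haw
    · exact (even_out hM hd0 hA0 hB hCyc hw1 hbv'.2 hwb).trans hsub
    · intro y hy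
      by_contra hyW
      rw [C.mem_N] at hy
      exact even_E1 hM hδ hd0 hA0 hB hCyc hw1 (fun h => hyW (hsub h))
        (by
          rintro rfl
          exact hyW (mem_union_left _ hw1A)) (mem_erase.2 ⟨haw, ha⟩) hbv'.2 hwb (C.symm _ _ _ hy)
  · intro b hb y hy
    by_contra hyW
    rw [C.mem_N] at hy
    exact even_E2 hM hδ hd0 hA0 hB hCyc hw1 (fun h => hyW (hsub h))
      (by
        rintro rfl
        exact hyW (mem_union_left _ hw1A)) hbv'.2 hb hwb (C.symm' hy)

/-- **Main statement.** -/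
theorem card_le (C : Ctx V) {k : ℕ} (h3 : 3 * k ≤ 4 * C.δ) (hMk : C.M ≤ k) {l : List (V × Bool)}
    (hl : C.AP l) (hlen : l.length = C.M) (hne : l ≠ [])
    (hconn : ∀ R : V × Bool → Prop, (∀ g h, R g → C.adj g h → R h) →
      ∀ v, R (v, true) → R (v, false) → ∀ w, R (w, true) ∨ R (w, false)) :
    Fintype.card V ≤ C.M := by
  obtain ⟨⟨x, s⟩, hx⟩ : ∃ x0, x0 ∈ l.head? := by
    cases l with
    | nil => exact absurd rfl hne
    | cons a t => exact ⟨a, by simp⟩
  obtain ⟨⟨z, t⟩, hz⟩ : ∃ z0, z0 ∈ l.getLast? :=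
    ⟨l.getLast hne, by rw [List.getLast?_eq_getLast_of_ne_nil hne]; rfl⟩
  have hpos : 0 < l.length := List.length_pos_iff.2 hne
  obtain ⟨A0, B0, -, -, hc, hb⟩ := sides hl hx hz
  by_cases hst : t = s
  · subst hst
    rw [if_pos rfl] at hb
    obtain ⟨A, B, hS, hA, hB⟩ := even_init (n := B0.card) (by omega) (by omega) hl hlen hx hz
    have hall := even_closed (n := B0.card) (by omega) (by omega) hS hA hB hconn
    have : Fintype.card V ≤ (A ∪ B).card := by
      rw [← card_univ]
      exact card_le_card fun w _ => hall w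
    rw [card_union_of_disjoint hS.disj] at this
    omega
  · rw [if_neg hst] at hb
    obtain ⟨A, B, hS, hA, hB⟩ := odd_init (p := B0.card) (by omega) (by omega) hl hlen hx hz hst
    have hall := odd_closed (p := B0.card) (by omega) (by omega) hS (by omega) hA hB hconn
    have : Fintype.card V ≤ (A ∪ B).card := by
      rw [← card_univ]
      exact card_le_card fun w _ => hall w
    rw [card_union_of_disjoint hS.disj] at this
    omega

end Ctx

end Pool.Agent.H136.AntiPath
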