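import Pool.Agent.H136.AntiPath

/-! The case of a longest antidirected path with an even number of vertices. -/

set_option autoImplicit false

namespace Pool.Agent.H136.AntiPath

open Finset Pool.Agent.H136.CycList

variable {V : Type*} [Fintype V] [DecidableEq V]

namespace Ctx

variable {C : Ctx V}

/-- the closure argument -/
lemma closure {s : Bool} {A B : Finset V}
    (P1 : ∀ a ∈ A, C.N s a ⊆ A ∪ B) (P2 : ∀ b ∈ B, C.N (!s) b ⊆ A ∪ B)
    (P3 : ∀ a ∈ A, ∀ a' ∈ A, C.e s a' a → C.N (!s) a ⊆ A ∪ B)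
    (P3' : ∀ b ∈ B, ∀ b' ∈ B, C.e s b b' → C.N s b ⊆ A ∪ B)
    (P4 : ∀ a ∈ A, ∀ a' ∈ A, ∀ b ∈ B, C.e s a' a → C.e s b a → ∃ b' ∈ B, C.e s b b')
    (P4' : ∀ b ∈ B, ∀ b' ∈ B, ∀ a ∈ A, C.e s b b' → C.e s b a → ∃ a' ∈ A, C.e s a' a)
    (P5 : ∃ a ∈ A, ∃ a0 ∈ A, C.e s a a0)
    (hconn : ∀ R : V × Bool → Prop, (∀ g h, R g → C.adj g h → R h) →
      ∀ v, R (v, true) → R (v, false) → ∀ w, R (w, true) ∨ R (w, false)) :
    ∀ w, w ∈ A ∪ B := by
  intro w
  set R : V × Bool → Prop := fun g => (g.2 = s ∧ g.1 ∈ A) ∨ (g.2 = (!s) ∧ g.1 ∈ B) ∨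
    (g.2 = (!s) ∧ g.1 ∈ A ∧ ∃ a' ∈ A, C.e s a' g.1) ∨
    (g.2 = s ∧ g.1 ∈ B ∧ ∃ b' ∈ B, C.e s g.1 b') with hR
  have hRW : ∀ g, R g → g.1 ∈ A ∪ B := by
    rintro g (h | h | h | h)
    · exact mem_union_left _ h.2
    · exact mem_union_right _ h.2
    · exact mem_union_left _ h.2.1
    · exact mem_union_right _ h.2.1
  have hcl : ∀ g h, R g → C.adj g h → R h := by
    rintro ⟨v, t⟩ ⟨u, t'⟩ hg ⟨h1, h2⟩
    simp only at h1 h2
    subst h1
    rcases hg with ⟨h, hv⟩ | ⟨h, hv⟩ | ⟨h, hv, a', ha', he⟩ | ⟨h, hv, b', hb', he⟩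
    · simp only at h hv
      subst h
      rcases mem_union.1 (P1 v hv (C.mem_N.2 h2)) with hu | hu
      · exact Or.inr (Or.inr (Or.inl ⟨rfl, hu, v, hv, h2⟩))
      · exact Or.inr (Or.inl ⟨rfl, hu⟩)
    · simp only at h hv
      subst h
      rcases mem_union.1 (P2 v hv (C.mem_N.2 h2)) with hu | hu
      · exact Or.inl ⟨by simp, hu⟩
      · exact Or.inr (Or.inr (Or.inr ⟨by simp, hu, v, hv, C.symm' h2⟩))
    · simp only at h hv he
      subst h
      rcases mem_union.1 (P3 v hv a' ha' he (C.mem_N.2 h2)) with hu | hu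
      · exact Or.inl ⟨by simp, hu⟩
      · obtain ⟨b', hb', hbb⟩ := P4 v hv a' ha' u hu he (C.symm' h2)
        exact Or.inr (Or.inr (Or.inr ⟨by simp, hu, b', hb', hbb⟩))
    · simp only at h hv he
      subst h
      rcases mem_union.1 (P3' v hv b' hb' he (C.mem_N.2 h2)) with hu | hu
      · obtain ⟨a', ha', haa⟩ := P4' v hv b' hb' u hu he h2
        exact Or.inr (Or.inr (Or.inl ⟨rfl, hu, a', ha', haa⟩))
      · exact Or.inr (Or.inl ⟨rfl, hu⟩)
  obtain ⟨a, ha, a0, ha0, he⟩ := P5
  have h1 : R (a0, s) := Or.inl ⟨rfl, ha0⟩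
  have h2 : R (a0, !s) := Or.inr (Or.inr (Or.inl ⟨rfl, ha0, a, ha, he⟩))
  have h3 : R (a0, true) ∧ R (a0, false) := by
    revert h1 h2
    clear_value R
    cases s
    · simp only [Bool.not_false]
      exact fun h1 h2 => ⟨h2, h1⟩
    · simp only [Bool.not_true]
      exact fun h1 h2 => ⟨h1, h2⟩
  rcases hconn R hcl a0 h3.1 h3.2 w with h | h
  · exact hRW _ h
  · exact hRW _ h

variable (C)

/-- no neighbour in the right sense leaves `A ∪ B` -/
structure Sys (s : Bool) (A B : Finset V) : Prop where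
  disj : Disjoint A B
  hA : ∀ a ∈ A, C.N s a ⊆ A ∪ B
  hB : ∀ b ∈ B, C.N (!s) b ⊆ A ∪ B

variable {C}

lemma Sys.swap {s : Bool} {A B : Finset V} (h : C.Sys s A B) : C.Sys (!s) B A :=
  ⟨h.disj.symm, fun b hb => by rw [union_comm]; exact h.hB b hb,
    fun a ha => by rw [union_comm, Bool.not_not]; exact h.hA a ha⟩

section odd

variable {p : ℕ} (hM : C.M = 2 * p) (hδ : 3 * p ≤ 2 * C.δ) {s : Bool} {A B : Finset V}

include hδ in
lemma odd_mm (h : C.Sys s A B) (hA : A.card = p) (hB : B.card = p) {a b : V} (ha : a ∈ A)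
    (hb : b ∈ B) : C.CycOn s (A.erase a) (B.erase b) := by
  have hp : 0 < p := by rw [← hA]; exact card_pos.2 ⟨a, ha⟩
  have hW : (A ∪ B).card = 2 * p := by rw [card_union_of_disjoint h.disj]; omega
  refine mm (q := p - 1) (d := C.δ - p)
    (disjoint_of_subset_left (erase_subset _ _) (disjoint_of_subset_right (erase_subset _ _) h.disj))
    (by rw [card_erase_of_mem ha]; omega) (by rw [card_erase_of_mem hb]; omega) ?_ ?_ (by omega)
  · intro a' ha'
    have ha'A := mem_of_mem_erase ha'
    have := deg_in (C := C) (s := s) (x := a') (W := A ∪ B) (S := B.erase b)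
      (mem_union_left _ ha'A) (h.hA a' ha'A)
      (fun y hy => mem_union_right _ (mem_of_mem_erase hy))
      (fun hh => disjoint_left.1 h.disj ha'A (mem_of_mem_erase hh))
    rw [hW, card_erase_of_mem hb] at this
    omega
  · intro b' hb'
    have hb'B := mem_of_mem_erase hb'
    have := deg_in (C := C) (s := !s) (x := b') (W := A ∪ B) (S := A.erase a)
      (mem_union_right _ hb'B) (h.hB b' hb'B)
      (fun y hy => mem_union_left _ (mem_of_mem_erase hy))
      (fun hh => disjoint_left.1 h.disj (mem_of_mem_erase hh) hb'B)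
    rw [hW, card_erase_of_mem ha] at this
    omega

include hM hδ in
lemma odd_P3 (h : C.Sys s A B) (hA : A.card = p) (hB : B.card = p) {a a' : V} (ha : a ∈ A)
    (ha' : a' ∈ A) (he : C.e s a' a) : C.N (!s) a ⊆ A ∪ B := by
  have hp : 0 < p := by rw [← hA]; exact card_pos.2 ⟨a, ha⟩
  have hne : a' ≠ a := by
    rintro rfl
    exact C.irr _ _ he
  by_contra hcon
  obtain ⟨y, hy, hyW⟩ := not_subset.1 hcon
  rw [C.mem_N] at hy
  have hyA : y ∉ A := fun h => hyW (mem_union_left _ h)
  have hyB : y ∉ B := fun h => hyW (mem_union_right _ h)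
  have claim : ∀ b ∈ B, ∀ w, C.e s y w → w ∉ A → w ∉ B.erase b → False := by
    intro b hb w hyw hwA hwB
    have hd : Disjoint (A.erase a) (B.erase b) :=
      disjoint_of_subset_left (erase_subset _ _) (disjoint_of_subset_right (erase_subset _ _) h.disj)
    obtain ⟨t, ht, hlen, hmem⟩ := (odd_mm hδ h hA hB ha hb).pathFrom hd
      (mem_erase.2 ⟨hne, ha'⟩)
    have hin : ∀ g ∈ (a', s) :: t, g.1 ∈ A.erase a ∨ g.1 ∈ B.erase b := by
      intro g hg
      rcases (hmem g).1 hg with h | h
      · exact Or.inl h.2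
      · exact Or.inr h.2
    have h1 : C.AP ((a, !s) :: (a', s) :: t) := by
      refine ht.cons (by simpa [adj] using C.symm _ _ _ he) ?_
      intro g hg hga
      simp only at hga
      rcases hin g hg with h' | h'
      · exact (mem_erase.1 h').1 hga
      · exact disjoint_left.1 h.disj ha (hga ▸ mem_of_mem_erase h')
    have h2 : C.AP ((y, s) :: (a, !s) :: (a', s) :: t) := by
      refine h1.cons (by simpa [adj] using C.symm' hy) ?_
      intro g hg hgy
      simp only at hgy
      rcases List.mem_cons.1 hg with rfl | hg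
      · exact hyA (hgy ▸ ha)
      · rcases hin g hg with h' | h'
        · exact hyA (hgy ▸ mem_of_mem_erase h')
        · exact hyB (hgy ▸ mem_of_mem_erase h')
    have h3 : C.AP ((w, !s) :: (y, s) :: (a, !s) :: (a', s) :: t) := by
      refine h2.cons (by simpa [adj] using C.symm _ _ _ hyw) ?_
      intro g hg hgw
      simp only at hgw
      rcases List.mem_cons.1 hg with rfl | hg
      · simp only at hgw
        subst hgw
        exact C.irr _ _ hyw
      rcases List.mem_cons.1 hg with rfl | hg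
      · exact hwA (hgw ▸ ha)
      · rcases hin g hg with h' | h'
        · exact hwA (hgw ▸ mem_of_mem_erase h')
        · exact hwB (hgw ▸ h')
    have h4 := h3.le
    simp only [List.length_cons] at h4 hlen
    rw [card_erase_of_mem ha, card_erase_of_mem hb] at hlen
    omega
  have hsub : C.N s y ⊆ A := by
    intro w hw
    rw [C.mem_N] at hw
    by_contra hwA
    by_cases hwB : w ∈ B
    · exact claim w hwB w hw hwA (by simp)
    · obtain ⟨b0, hb0⟩ := card_pos.1 (by omega : 0 < B.card)
      exact claim b0 hb0 w hw hwA (fun h => hwB (mem_of_mem_erase h))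
  have h1 := card_le_card hsub
  have h2 := C.card_N s y
  omega

include hM hδ in
lemma odd_P4 (h : C.Sys s A B) (hA : A.card = p) (hB : B.card = p) {a a' b : V} (ha : a ∈ A)
    (ha' : a' ∈ A) (hb : b ∈ B) (he : C.e s a' a) (hba : C.e s b a) :
    ∃ b' ∈ B, C.e s b b' := by
  have hp : 0 < p := by rw [← hA]; exact card_pos.2 ⟨a, ha⟩
  have hne : a' ≠ a := by
    rintro rfl
    exact C.irr _ _ he
  by_contra hcon
  push Not at hcon
  by_cases hsub : C.N s b ⊆ A ∪ B
  · have hsub' : C.N s b ⊆ A := by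
      intro w hw
      rcases mem_union.1 (hsub hw) with h | h
      · exact h
      · exact absurd (C.mem_N.1 hw) (hcon w h)
    have h1 := card_le_card hsub'
    have h2 := C.card_N s b
    omega
  · obtain ⟨y, hy, hyW⟩ := not_subset.1 hsub
    rw [C.mem_N] at hy
    have hyA : y ∉ A := fun h => hyW (mem_union_left _ h)
    have hyB : y ∉ B := fun h => hyW (mem_union_right _ h)
    have hd : Disjoint (A.erase a) (B.erase b) :=
      disjoint_of_subset_left (erase_subset _ _) (disjoint_of_subset_right (erase_subset _ _) h.disj)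
    obtain ⟨t, ht, hlen, hmem⟩ := (odd_mm hδ h hA hB ha hb).pathFrom hd
      (mem_erase.2 ⟨hne, ha'⟩)
    have hin : ∀ g ∈ (a', s) :: t, g.1 ∈ A.erase a ∨ g.1 ∈ B.erase b := by
      intro g hg
      rcases (hmem g).1 hg with h | h
      · exact Or.inl h.2
      · exact Or.inr h.2
    have h1 : C.AP ((a, !s) :: (a', s) :: t) := by
      refine ht.cons (by simpa [adj] using C.symm _ _ _ he) ?_
      intro g hg hga
      simp only at hga
      rcases hin g hg with h' | h'
      · exact (mem_erase.1 h').1 hga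
      · exact disjoint_left.1 h.disj ha (hga ▸ mem_of_mem_erase h')
    have h2 : C.AP ((b, s) :: (a, !s) :: (a', s) :: t) := by
      refine h1.cons (by simpa [adj] using hba) ?_
      intro g hg hgy
      simp only at hgy
      rcases List.mem_cons.1 hg with rfl | hg
      · simp only at hgy
        subst hgy
        exact disjoint_left.1 h.disj ha hb
      · rcases hin g hg with h' | h'
        · exact disjoint_left.1 h.disj (mem_of_mem_erase h') (hgy ▸ hb)
        · exact (mem_erase.1 h').1 hgy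
    have h3 : C.AP ((y, !s) :: (b, s) :: (a, !s) :: (a', s) :: t) := by
      refine h2.cons (by simpa [adj] using C.symm _ _ _ hy) ?_
      intro g hg hgw
      simp only at hgw
      rcases List.mem_cons.1 hg with rfl | hg
      · exact hyB (hgw ▸ hb)
      rcases List.mem_cons.1 hg with rfl | hg
      · exact hyA (hgw ▸ ha)
      · rcases hin g hg with h' | h'
        · exact hyA (hgw ▸ mem_of_mem_erase h')
        · exact hyB (hgw ▸ mem_of_mem_erase h')
    have h4 := h3.le
    simp only [List.length_cons] at h4 hlen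
    rw [card_erase_of_mem ha, card_erase_of_mem hb] at hlen
    omega

include hM hδ in
/-- the closed system covers everything -/
lemma odd_closed (h : C.Sys s A B) (hp : 0 < p) (hA : A.card = p) (hB : B.card = p)
    (hconn : ∀ R : V × Bool → Prop, (∀ g h, R g → C.adj g h → R h) →
      ∀ v, R (v, true) → R (v, false) → ∀ w, R (w, true) ∨ R (w, false)) :
    ∀ w, w ∈ A ∪ B := by
  refine closure h.hA h.hB (fun a ha a' ha' he => odd_P3 hM hδ h hA hB ha ha' he) ?_
    (fun a ha a' ha' b hb he hba => odd_P4 hM hδ h hA hB ha ha' hb he hba) ?_ ?_ hconn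
  · intro b hb b' hb' he
    have := odd_P3 hM hδ h.swap hB hA hb hb' (C.symm _ _ _ he)
    rwa [Bool.not_not, union_comm] at this
  · intro b hb b' hb' a ha he hba
    obtain ⟨a', ha', h'⟩ := odd_P4 hM hδ h.swap hB hA hb hb' ha (C.symm _ _ _ he)
      (C.symm _ _ _ hba)
    exact ⟨a', ha', C.symm' h'⟩
  · obtain ⟨a, ha⟩ := card_pos.1 (by omega : 0 < A.card)
    by_contra hcon
    push Not at hcon
    have hsub : C.N s a ⊆ B := by
      intro w hw
      rcases mem_union.1 (h.hA a ha hw) with h' | h'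
      · exact absurd (C.mem_N.1 hw) (hcon a ha w h')
      · exact h'
    have h1 := card_le_card hsub
    have h2 := C.card_N s a
    omega

end odd

end Ctx

end Pool.Agent.H136.AntiPath
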