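import Pool.Agent.H136.CycList

/-! Antidirected paths as chains in the bipartite double cover. -/

set_option autoImplicit false

namespace Pool.Agent.H136.AntiPath

open Finset Pool.Agent.H136.CycList

variable {V : Type*} [Fintype V] [DecidableEq V]

/-- The standing data: `e true x y` says that there is an arc from `x` to `y`, `e false x y` that there is
an arc from `y` to `x`. -/
structure Ctx (V : Type*) [Fintype V] [DecidableEq V] where
  /-- the relation -/
  e : Bool → V → V → Prop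
  symm : ∀ s x y, e s x y → e (!s) y x
  irr : ∀ s x, ¬ e s x x
  /-- the degree bound -/
  δ : ℕ
  hδ : ∀ s x, ∃ N : Finset V, (∀ y ∈ N, e s x y) ∧ δ ≤ N.card
  /-- the order of a longest antidirected path -/
  M : ℕ
  hM : ∀ l : List (V × Bool), l.IsChain (fun a b => b.2 = !a.2 ∧ e a.2 a.1 b.1) →
    (l.map Prod.fst).Nodup → l.length ≤ M

namespace Ctx

variable (C : Ctx V)

/-- adjacency in the double cover -/
def adj (a b : V × Bool) : Prop := b.2 = !a.2 ∧ C.e a.2 a.1 b.1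

lemma symm' {s : Bool} {x y : V} (h : C.e (!s) x y) : C.e s y x := by
  have := C.symm _ _ _ h
  rwa [Bool.not_not] at this

lemma adj_symm (a b : V × Bool) (h : C.adj a b) : C.adj b a := by
  obtain ⟨h1, h2⟩ := h
  refine ⟨by rw [h1, Bool.not_not], ?_⟩
  rw [h1]
  exact C.symm _ _ _ h2

lemma adj_ne (a b : V × Bool) (h : C.adj a b) : a.2 ≠ b.2 := by
  rw [h.1]
  cases a.2 <;> simp

open Classical in
/-- neighbours of `x` used with sign `s` -/
noncomputable def N (s : Bool) (x : V) : Finset V := univ.filter (C.e s x)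

lemma mem_N {s : Bool} {x y : V} : y ∈ C.N s x ↔ C.e s x y := by
  classical
  simp [N]

lemma card_N (s : Bool) (x : V) : C.δ ≤ (C.N s x).card := by
  obtain ⟨N, h1, h2⟩ := C.hδ s x
  exact h2.trans (card_le_card fun y hy => C.mem_N.2 (h1 y hy))

lemma not_mem_N (s : Bool) (x : V) : x ∉ C.N s x := fun h => C.irr s x (C.mem_N.1 h)

/-- antidirected paths -/
def AP (l : List (V × Bool)) : Prop := l.IsChain C.adj ∧ (l.map Prod.fst).Nodup

variable {C}

lemma AP.le {l : List (V × Bool)} (h : C.AP l) : l.length ≤ C.M := C.hM l h.1 h.2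

lemma AP.reverse {l : List (V × Bool)} (h : C.AP l) : C.AP l.reverse :=
  ⟨chain_reverse C.adj_symm h.1, by rw [List.map_reverse, List.nodup_reverse]; exact h.2⟩

lemma AP.cons {l : List (V × Bool)} (h : C.AP l) {g : V × Bool}
    (h1 : ∀ a ∈ l.head?, C.adj g a) (h2 : ∀ a ∈ l, a.1 ≠ g.1) : C.AP (g :: l) := by
  refine ⟨h.1.cons h1, ?_⟩
  rw [List.map_cons, List.nodup_cons]
  refine ⟨fun hm => ?_, h.2⟩
  obtain ⟨a, ha, hag⟩ := List.mem_map.1 hm
  exact h2 a ha hag

lemma AP.concat {l : List (V × Bool)} (h : C.AP l) {g : V × Bool}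
    (h1 : ∀ a ∈ l.getLast?, C.adj a g) (h2 : ∀ a ∈ l, a.1 ≠ g.1) : C.AP (l ++ [g]) := by
  have h3 := (h.reverse.cons (g := g) (fun a ha => C.adj_symm _ _
    (h1 a (by rwa [List.head?_reverse] at ha))) (fun a ha => h2 a (by simpa using ha))).reverse
  simpa using h3

lemma AP.nodup {l : List (V × Bool)} (h : C.AP l) : l.Nodup := List.Nodup.of_map _ h.2

lemma AP.alt {l : List (V × Bool)} (h : C.AP l) : l.IsChain (fun x y => x.2 ≠ y.2) :=
  h.1.imp fun a b hab => C.adj_ne a b hab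

variable (C)

/-- there is an antidirected cycle with vertices `A` (sign `s`) and `B` (the other sign) -/
def CycOn (s : Bool) (A B : Finset V) : Prop :=
  ∃ l : List (V × Bool), Cyc C.adj l ∧ (l.map Prod.fst).Nodup ∧
    ∀ g, g ∈ l ↔ (g.2 = s ∧ g.1 ∈ A) ∨ (g.2 = (!s) ∧ g.1 ∈ B)

variable {C}

lemma CycOn.swap {s : Bool} {A B : Finset V} (h : C.CycOn s A B) : C.CycOn (!s) B A := by
  obtain ⟨l, h1, h2, h3⟩ := h
  refine ⟨l, h1, h2, fun g => ?_⟩
  rw [h3, Bool.not_not, or_comm]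

lemma length_eq {s : Bool} {A B : Finset V} (hd : Disjoint A B) {l : List (V × Bool)}
    (h2 : (l.map Prod.fst).Nodup)
    (h3 : ∀ g, g ∈ l ↔ (g.2 = s ∧ g.1 ∈ A) ∨ (g.2 = (!s) ∧ g.1 ∈ B)) :
    l.length = A.card + B.card := by
  rw [← card_union_of_disjoint hd, ← List.length_map (as := l) (f := Prod.fst),
    ← List.toFinset_card_of_nodup h2]
  congr 1
  ext v
  simp only [List.mem_toFinset, List.mem_map, mem_union]
  constructor
  · rintro ⟨g, hg, rfl⟩
    rcases (h3 g).1 hg with h | h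
    · exact Or.inl h.2
    · exact Or.inr h.2
  · rintro (h | h)
    · exact ⟨(v, s), (h3 _).2 (Or.inl ⟨rfl, h⟩), rfl⟩
    · exact ⟨(v, !s), (h3 _).2 (Or.inr ⟨rfl, h⟩), rfl⟩

/-- a path around the cycle starting at a member of `A` -/
lemma CycOn.pathFrom {s : Bool} {A B : Finset V} (hd : Disjoint A B) (h : C.CycOn s A B) {a : V}
    (ha : a ∈ A) : ∃ t, C.AP ((a, s) :: t) ∧ ((a, s) :: t).length = A.card + B.card ∧
      ∀ g, g ∈ (a, s) :: t ↔ (g.2 = s ∧ g.1 ∈ A) ∨ (g.2 = (!s) ∧ g.1 ∈ B) := by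
  obtain ⟨l, h1, h2, h3⟩ := h
  obtain ⟨t, ht, hp⟩ := h1.start ((h3 (a, s)).2 (Or.inl ⟨rfl, ha⟩))
  have hnd : (((a, s) :: t).map Prod.fst).Nodup := (hp.map Prod.fst).nodup_iff.2 h2
  have hmem : ∀ g, g ∈ (a, s) :: t ↔ (g.2 = s ∧ g.1 ∈ A) ∨ (g.2 = (!s) ∧ g.1 ∈ B) :=
    fun g => (hp.mem_iff).trans (h3 g)
  exact ⟨t, ⟨ht.1, hnd⟩, length_eq hd hnd hmem, hmem⟩

lemma CycOn.pathFrom' {s : Bool} {A B : Finset V} (hd : Disjoint A B) (h : C.CycOn s A B) {b : V}
    (hb : b ∈ B) : ∃ t, C.AP ((b, !s) :: t) ∧ ((b, !s) :: t).length = A.card + B.card ∧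
      ∀ g, g ∈ (b, !s) :: t ↔ (g.2 = s ∧ g.1 ∈ A) ∨ (g.2 = (!s) ∧ g.1 ∈ B) := by
  obtain ⟨t, h1, h2, h3⟩ := h.swap.pathFrom hd.symm hb
  refine ⟨t, h1, by rw [h2, add_comm], fun g => ?_⟩
  rw [h3, Bool.not_not, or_comm]

/-- Moon-Moser for antidirected cycles -/
lemma mm {s : Bool} {A B : Finset V} (hd : Disjoint A B) {q d : ℕ} (hA : A.card = q)
    (hB : B.card = q) (h1 : ∀ a ∈ A, d ≤ (C.N s a ∩ B).card)
    (h2 : ∀ b ∈ B, d ≤ (C.N (!s) b ∩ A).card) (h3 : q < 2 * d) : C.CycOn s A B := by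
  classical
  set T : Finset (V × Bool) :=
    univ.filter (fun g => (g.2 = s ∧ g.1 ∈ A) ∨ (g.2 = (!s) ∧ g.1 ∈ B)) with hT
  have hmT : ∀ g, g ∈ T ↔ (g.2 = s ∧ g.1 ∈ A) ∨ (g.2 = (!s) ∧ g.1 ∈ B) := by
    intro g
    simp [hT]
  have c1 : (T.filter (fun x => x.2 = s)).card = q := by
    rw [← hA]
    have : T.filter (fun x => x.2 = s) = A.image (fun v => (v, s)) := by
      ext ⟨v, b⟩
      simp only [mem_filter, hmT, mem_image, Prod.mk.injEq]
      constructor
      · rintro ⟨h | h, hb⟩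
        · exact ⟨v, h.2, rfl, hb.symm⟩
        · exact absurd (h.1.symm.trans hb) (by simp)
      · rintro ⟨w, hw, rfl, rfl⟩
        exact ⟨Or.inl ⟨rfl, hw⟩, rfl⟩
    rw [this, card_image_of_injective _ (fun a b h => (Prod.mk.inj h).1)]
  have c2 : (T.filter (fun x => x.2 = !s)).card = q := by
    rw [← hB]
    have : T.filter (fun x => x.2 = !s) = B.image (fun v => (v, !s)) := by
      ext ⟨v, b⟩
      simp only [mem_filter, hmT, mem_image, Prod.mk.injEq]
      constructor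
      · rintro ⟨h | h, hb⟩
        · exact absurd (h.1.symm.trans hb) (by simp)
        · exact ⟨v, h.2, rfl, hb.symm⟩
      · rintro ⟨w, hw, rfl, rfl⟩
        exact ⟨Or.inr ⟨rfl, hw⟩, rfl⟩
    rw [this, card_image_of_injective _ (fun a b h => (Prod.mk.inj h).1)]
  have c3 : ∀ c : Bool, (T.filter (fun x => x.2 = c)).card = q := by
    intro c
    rcases Bool.eq_or_eq_not c s with rfl | rfl
    · exact c1
    · exact c2
  obtain ⟨l, h4, h5, h6⟩ := moonMoser C.adj C.adj_symm Prod.snd C.adj_ne T q d (c3 true) (c3 false)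
    (by
      rintro ⟨v, b⟩ hx
      rcases (hmT _).1 hx with ⟨h, h'⟩ | ⟨h, h'⟩
      · simp only at h h'
        subst h
        refine ⟨(C.N b v ∩ B).image (fun w => (w, !b)), ?_, ?_⟩
        · intro y hy
          obtain ⟨w, hw, rfl⟩ := mem_image.1 hy
          rw [mem_inter, C.mem_N] at hw
          exact ⟨(hmT _).2 (Or.inr ⟨rfl, hw.2⟩), rfl, hw.1⟩
        · rw [card_image_of_injective _ (fun a b h => (Prod.mk.inj h).1)]
          exact h1 v h'
      · simp only at h h'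
        subst h
        refine ⟨(C.N (!s) v ∩ A).image (fun w => (w, s)), ?_, ?_⟩
        · intro y hy
          obtain ⟨w, hw, rfl⟩ := mem_image.1 hy
          rw [mem_inter, C.mem_N] at hw
          exact ⟨(hmT _).2 (Or.inl ⟨rfl, hw.2⟩), by simp, hw.1⟩
        · rw [card_image_of_injective _ (fun a b h => (Prod.mk.inj h).1)]
          exact h2 v h') h3
  refine ⟨l, h4, ?_, fun g => ?_⟩
  · refine List.Nodup.map_on ?_ h5
    intro x hx y hy hxy
    rw [← List.mem_toFinset, h6] at hx hy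
    rcases (hmT _).1 hx with h | h <;> rcases (hmT _).1 hy with h' | h'
    · exact Prod.ext hxy (by rw [h.1, h'.1])
    · exact absurd (hxy ▸ h'.2 : x.1 ∈ B) (disjoint_left.1 hd h.2)
    · exact absurd (hxy ▸ h.2 : y.1 ∈ B) (disjoint_left.1 hd h'.2)
    · exact Prod.ext hxy (by rw [h.1, h'.1])
  · rw [← List.mem_toFinset, h6]
    exact hmT g

/-- counting neighbours inside a set, for a member of the closed set `W` -/
lemma deg_in {s : Bool} {x : V} {W S : Finset V} (hx : x ∈ W) (hN : C.N s x ⊆ W) (hS : S ⊆ W)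
    (hxS : x ∉ S) : C.δ + S.card + 1 ≤ (C.N s x ∩ S).card + W.card := by
  have h1 := card_union_add_card_inter (C.N s x) S
  have h2 : (C.N s x ∪ S).card ≤ (W.erase x).card := by
    apply card_le_card
    intro y hy
    rw [mem_erase]
    rcases mem_union.1 hy with h | h
    · exact ⟨fun h' => C.not_mem_N s x (h' ▸ h), hN h⟩
    · exact ⟨fun h' => hxS (h' ▸ h), hS h⟩
  rw [card_erase_of_mem hx] at h2
  have h3 := C.card_N s x
  have h4 : 0 < W.card := card_pos.2 ⟨x, hx⟩
  omega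

/-- counting neighbours inside a set, for a vertex outside the closed set `W` -/
lemma deg_out {s : Bool} {x : V} {W S : Finset V} (hN : C.N s x ⊆ W) (hS : S ⊆ W) :
    C.δ + S.card ≤ (C.N s x ∩ S).card + W.card := by
  have h1 := card_union_add_card_inter (C.N s x) S
  have h2 : (C.N s x ∪ S).card ≤ W.card := card_le_card (union_subset hN hS)
  have h3 := C.card_N s x
  omega

end Ctx

end Pool.Agent.H136.AntiPath
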