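import Mathlib

/-! Cyclic lists for a bipartite relation: splitting lemmas and a Moon-Moser type lemma. -/

set_option autoImplicit false

namespace Pool.Agent.H136.CycList

open List

variable {G : Type*}

/-- `l` is a closed chain for `r`: consecutive members are related, and the last one is related to
the first one. -/
def Cyc (r : G → G → Prop) (l : List G) : Prop :=
  l.IsChain r ∧ ∀ a ∈ l.getLast?, ∀ b ∈ l.head?, r a b

lemma Cyc.rot {r : G → G → Prop} {u v : List G} (h : Cyc r (u ++ v)) : Cyc r (v ++ u) := by
  rcases eq_or_ne u [] with rfl | hu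
  · simpa using h
  rcases eq_or_ne v [] with rfl | hv
  · simpa using h
  obtain ⟨h1, h2⟩ := h
  rw [List.isChain_append] at h1
  rw [List.getLast?_append_of_ne_nil _ hv, List.head?_append_of_ne_nil _ hu] at h2
  refine ⟨List.isChain_append.2 ⟨h1.2.1, h1.1, h2⟩, ?_⟩
  rw [List.getLast?_append_of_ne_nil _ hu, List.head?_append_of_ne_nil _ hv]
  exact h1.2.2

/-- a closed chain can be started at any of its members -/
lemma Cyc.start {r : G → G → Prop} {l : List G} (h : Cyc r l) {z : G} (hz : z ∈ l) :
    ∃ t, Cyc r (z :: t) ∧ (z :: t).Perm l := by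
  obtain ⟨u, v, rfl⟩ := List.append_of_mem hz
  refine ⟨v ++ u, ?_, ?_⟩
  · have := h.rot
    simpa using this
  · have : (z :: v ++ u).Perm (u ++ z :: v) := List.perm_append_comm
    simpa using this

lemma chain_reverse {r : G → G → Prop} (hs : ∀ x y, r x y → r y x) {l : List G}
    (h : l.IsChain r) : l.reverse.IsChain r := by
  rw [List.isChain_reverse]
  exact h.imp fun a b hab => hs _ _ hab

/-- the two-piece switch -/
lemma cyc_switch {r : G → G → Prop} (hs : ∀ x y, r x y → r y x) {u v : List G}
    (hu : u.IsChain r) (hv : v.IsChain r)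
    (h1 : ∀ a ∈ u.getLast?, ∀ b ∈ v.getLast?, r a b)
    (h2 : ∀ a ∈ v.head?, ∀ b ∈ u.head?, r a b) (hun : u ≠ []) (hvn : v ≠ []) :
    Cyc r (u ++ v.reverse) := by
  refine ⟨List.isChain_append.2 ⟨hu, chain_reverse hs hv, ?_⟩, ?_⟩
  · rw [List.head?_reverse]
    exact h1
  · rw [List.getLast?_append_of_ne_nil _ (by simpa using hvn), List.head?_append_of_ne_nil _ hun,
      List.getLast?_reverse]
    exact h2

/-- **Splitting lemma.**  In a nodup list with alternating colours whose first and last members have
different colours: if `P` consists of members of the colour of the last one, `Q` of members of the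
colour of the first one, and together they are more than half of the list, then the list splits
between a member of `Q` and a member of `P`. -/
lemma split [DecidableEq G] (σ : G → Bool) {l : List G} (hnd : l.Nodup)
    (halt : l.IsChain (fun x y => σ x ≠ σ y)) {x0 z0 : G} (hx : x0 ∈ l.head?)
    (hz : z0 ∈ l.getLast?) (hxz : σ x0 ≠ σ z0) (P Q : Finset G)
    (hP : ∀ x ∈ P, x ∈ l ∧ σ x ≠ σ x0) (hQ : ∀ x ∈ Q, x ∈ l ∧ σ x = σ x0)
    (hc : (l.toFinset.filter (fun x => σ x = σ x0)).card < P.card + Q.card) :
    ∃ u v : List G, l = u ++ v ∧ (∃ a ∈ u.getLast?, a ∈ Q) ∧ (∃ b ∈ v.head?, b ∈ P) := by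
  classical
  set m := l.length with hm
  set f : ℕ → G := fun i => l.getD i x0 with hf
  have hfi : ∀ i, (h : i < m) → f i = l[i] := by
    intro i h
    simp [hf, List.getD, hm ▸ h]
  have hchain : ∀ i, i + 1 < m → σ (f i) ≠ σ (f (i + 1)) := by
    intro i hi
    rw [List.isChain_iff_getElem] at halt
    have := halt i hi
    rw [hfi i (by omega), hfi (i + 1) hi]
    exact this
  have hmem : ∀ x ∈ l, ∃ j < m, f j = x := by
    intro x hxl
    obtain ⟨j, hj, rfl⟩ := List.mem_iff_getElem.1 hxl
    exact ⟨j, hj, hfi j hj⟩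
  have hm0 : 0 < m := by
    rcases Nat.eq_zero_or_pos m with h | h
    · rw [hm, List.length_eq_zero_iff] at h
      subst h
      simp at hx
    · exact h
  have hf0 : f 0 = x0 := by
    rw [hfi 0 hm0]
    rw [List.head?_eq_getElem?, List.getElem?_eq_getElem hm0] at hx
    simpa using hx
  have hfl : f (m - 1) = z0 := by
    rw [hfi (m - 1) (by omega)]
    rw [List.getLast?_eq_getElem?, List.getElem?_eq_getElem (by omega)] at hz
    simpa using hz
  have hinj : ∀ i < m, ∀ j < m, f i = f j → i = j := by
    intro i hi j hj h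
    rw [hfi i hi, hfi j hj] at h
    exact (List.Nodup.getElem_inj_iff hnd).1 h
  set S0 := (Finset.range (m - 1)).filter (fun i => σ (f i) = σ x0) with hS0
  set S1 := S0.filter (fun i => f (i + 1) ∈ P) with hS1
  set S2 := S0.filter (fun i => f i ∈ Q) with hS2
  have c0 : S0.card ≤ (l.toFinset.filter (fun x => σ x = σ x0)).card := by
    apply Finset.card_le_card_of_injOn f
    · intro i hi
      rw [hS0] at hi
      simp only [Finset.coe_filter, Finset.mem_range, Set.mem_ofPred_eq] at hi
      simp only [Finset.coe_filter, List.mem_toFinset, Set.mem_ofPred_eq]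
      refine ⟨?_, hi.2⟩
      rw [hfi i (by omega)]
      exact List.getElem_mem _
    · intro i hi j hj h
      rw [hS0] at hi hj
      simp only [Finset.coe_filter, Finset.mem_range, Set.mem_ofPred_eq] at hi hj
      exact hinj i (by omega) j (by omega) h
  have c1 : P.card ≤ S1.card := by
    refine le_trans (Finset.card_le_card (t := S1.image (fun i => f (i + 1))) ?_)
      Finset.card_image_le
    intro x hxP
    obtain ⟨hxl, hxσ⟩ := hP x hxP
    obtain ⟨j, hj, hjx⟩ := hmem x hxl
    have hj0 : j ≠ 0 := by
      rintro rfl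
      rw [hf0] at hjx
      exact hxσ (by rw [hjx])
    obtain ⟨i, rfl⟩ := Nat.exists_eq_succ_of_ne_zero hj0
    rw [Finset.mem_image]
    refine ⟨i, ?_, hjx⟩
    rw [hS1, hS0]
    simp only [Finset.mem_filter, Finset.mem_range]
    refine ⟨⟨by omega, ?_⟩, by rw [← Nat.succ_eq_add_one, hjx]; exact hxP⟩
    have h1 := hchain i hj
    rw [← Nat.succ_eq_add_one, hjx] at h1
    revert h1 hxσ
    cases σ (f i) <;> cases σ x <;> cases σ x0 <;> simp
  have c2 : Q.card ≤ S2.card := by
    refine le_trans (Finset.card_le_card (t := S2.image f) ?_) Finset.card_image_le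
    intro x hxQ
    obtain ⟨hxl, hxσ⟩ := hQ x hxQ
    obtain ⟨j, hj, hjx⟩ := hmem x hxl
    have hj0 : j ≠ m - 1 := by
      rintro rfl
      rw [hfl] at hjx
      exact hxz (by rw [← hxσ, hjx])
    rw [Finset.mem_image]
    refine ⟨j, ?_, hjx⟩
    rw [hS2, hS0]
    simp only [Finset.mem_filter, Finset.mem_range]
    exact ⟨⟨by omega, by rw [hjx]; exact hxσ⟩, by rw [hjx]; exact hxQ⟩
  have hne : (S1 ∩ S2).Nonempty := by
    rw [← Finset.card_pos]
    have h1 := Finset.card_union_add_card_inter S1 S2
    have h2 : (S1 ∪ S2).card ≤ S0.card :=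
      Finset.card_le_card (Finset.union_subset (Finset.filter_subset _ _)
        (Finset.filter_subset _ _))
    omega
  obtain ⟨i, hi⟩ := hne
  rw [Finset.mem_inter, hS1, hS2, Finset.mem_filter, Finset.mem_filter, hS0, Finset.mem_filter,
    Finset.mem_range] at hi
  obtain ⟨⟨⟨hi1, hi2⟩, hi3⟩, -, hi4⟩ := hi
  refine ⟨l.take (i + 1), l.drop (i + 1), (List.take_append_drop _ _).symm, ⟨f i, ?_, hi4⟩,
    ⟨f (i + 1), ?_, hi3⟩⟩
  · rw [List.getLast?_take, hfi i (by omega)]
    have : l[i]? = some l[i] := List.getElem?_eq_getElem (by omega)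
    simp [this]
  · rw [List.head?_drop, hfi (i + 1) (by omega)]
    rw [List.getElem?_eq_getElem (by omega)]
    simp

/-- **Splitting lemma, equal end colours.**  In a nodup list with alternating colours whose first
and last members have the same colour, two sets of members of the other colour which together have
at least two more members than there are members of that colour: some `w` is preceded by a member of
`Q` and followed by a member of `P`. -/
lemma split_odd [DecidableEq G] (σ : G → Bool) {l : List G} (hnd : l.Nodup)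
    (halt : l.IsChain (fun x y => σ x ≠ σ y)) {x0 z0 : G} (hx : x0 ∈ l.head?)
    (hz : z0 ∈ l.getLast?) (hxz : σ x0 = σ z0) (P Q : Finset G)
    (hP : ∀ x ∈ P, x ∈ l ∧ σ x ≠ σ x0) (hQ : ∀ x ∈ Q, x ∈ l ∧ σ x ≠ σ x0)
    (hc : (l.toFinset.filter (fun x => σ x ≠ σ x0)).card + 1 < P.card + Q.card) :
    ∃ (u : List G) (w : G) (v : List G), l = u ++ w :: v ∧ (∃ a ∈ u.getLast?, a ∈ Q) ∧
      (∃ b ∈ v.head?, b ∈ P) ∧ σ w = σ x0 := by
  classical
  set m := l.length with hm
  set f : ℕ → G := fun i => l.getD i x0 with hf
  have hfi : ∀ i, (h : i < m) → f i = l[i] := by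
    intro i h
    simp [hf, List.getD, hm ▸ h]
  have hchain : ∀ i, i + 1 < m → σ (f i) ≠ σ (f (i + 1)) := by
    intro i hi
    rw [List.isChain_iff_getElem] at halt
    have := halt i hi
    rw [hfi i (by omega), hfi (i + 1) hi]
    exact this
  have hmem : ∀ x ∈ l, ∃ j < m, f j = x := by
    intro x hxl
    obtain ⟨j, hj, rfl⟩ := List.mem_iff_getElem.1 hxl
    exact ⟨j, hj, hfi j hj⟩
  have hm0 : 0 < m := by
    rcases Nat.eq_zero_or_pos m with h | h
    · rw [hm, List.length_eq_zero_iff] at h
      subst h
      simp at hx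
    · exact h
  have hf0 : f 0 = x0 := by
    rw [hfi 0 hm0]
    rw [List.head?_eq_getElem?, List.getElem?_eq_getElem hm0] at hx
    simpa using hx
  have hfl : f (m - 1) = z0 := by
    rw [hfi (m - 1) (by omega)]
    rw [List.getLast?_eq_getElem?, List.getElem?_eq_getElem (by omega)] at hz
    simpa using hz
  have hinj : ∀ i < m, ∀ j < m, f i = f j → i = j := by
    intro i hi j hj h
    rw [hfi i hi, hfi j hj] at h
    exact (List.Nodup.getElem_inj_iff hnd).1 h
  have hm2 : 2 ≤ m := by
    by_contra hlt
    have hm1 : m = 1 := by omega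
    have hall : ∀ x ∈ l, x = x0 := by
      intro x hxl
      obtain ⟨j, hj, hjx⟩ := hmem x hxl
      have : j = 0 := by omega
      rw [← hjx, this, hf0]
    have hP0 : P = ∅ := by
      rw [Finset.eq_empty_iff_forall_notMem]
      intro x hxP
      exact (hP x hxP).2 (by rw [hall x (hP x hxP).1])
    have hQ0 : Q = ∅ := by
      rw [Finset.eq_empty_iff_forall_notMem]
      intro x hxP
      exact (hQ x hxP).2 (by rw [hall x (hQ x hxP).1])
    rw [hP0, hQ0] at hc
    simp at hc
  set S0 := (Finset.range (m - 2)).filter (fun i => σ (f i) ≠ σ x0) with hS0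
  set S1 := S0.filter (fun i => f (i + 2) ∈ P) with hS1
  set S2 := S0.filter (fun i => f i ∈ Q) with hS2
  have hσm2 : σ (f (m - 2)) ≠ σ x0 := by
    have h1 := hchain (m - 2) (by omega)
    rw [show m - 2 + 1 = m - 1 by omega, hfl, ← hxz] at h1
    exact h1
  have c0 : S0.card + 1 ≤ (l.toFinset.filter (fun x => σ x ≠ σ x0)).card := by
    have hnot : m - 2 ∉ S0 := by
      rw [hS0, Finset.mem_filter, Finset.mem_range]
      omega
    rw [← Finset.card_insert_of_notMem hnot]
    have hins : ∀ i ∈ insert (m - 2) S0, i < m - 1 ∧ σ (f i) ≠ σ x0 := by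
      intro i hi
      rw [Finset.mem_insert, hS0, Finset.mem_filter, Finset.mem_range] at hi
      rcases hi with rfl | ⟨h1, h2⟩
      · exact ⟨by omega, hσm2⟩
      · exact ⟨by omega, h2⟩
    apply Finset.card_le_card_of_injOn f
    · intro i hi
      obtain ⟨h1, h2⟩ := hins i (by simpa using hi)
      simp only [Finset.coe_filter, List.mem_toFinset, Set.mem_ofPred_eq]
      refine ⟨?_, h2⟩
      rw [hfi i (by omega)]
      exact List.getElem_mem _
    · intro i hi j hj h
      have h1 := (hins i (by simpa using hi)).1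
      have h2 := (hins j (by simpa using hj)).1
      exact hinj i (by omega) j (by omega) h
  have c1 : P.card ≤ S1.card + 1 := by
    have h0 : P ⊆ insert (f 1) (S1.image (fun i => f (i + 2))) := by
      intro x hxP
      obtain ⟨hxl, hxσ⟩ := hP x hxP
      obtain ⟨j, hj, hjx⟩ := hmem x hxl
      rw [Finset.mem_insert]
      have hj0 : j ≠ 0 := by
        rintro rfl
        rw [hf0] at hjx
        exact hxσ (by rw [hjx])
      rcases eq_or_ne j 1 with rfl | hj1
      · exact Or.inl hjx.symm
      right
      obtain ⟨i, rfl⟩ : ∃ i, j = i + 2 := ⟨j - 2, by omega⟩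
      rw [Finset.mem_image]
      refine ⟨i, ?_, hjx⟩
      rw [hS1, hS0]
      simp only [Finset.mem_filter, Finset.mem_range]
      have h1 := hchain i (by omega)
      have h2 := hchain (i + 1) (by omega)
      rw [show i + 1 + 1 = i + 2 by omega, hjx] at h2
      refine ⟨⟨?_, ?_⟩, by rw [hjx]; exact hxP⟩
      · omega
      · revert h1 h2 hxσ
        cases σ (f i) <;> cases σ (f (i + 1)) <;> cases σ x <;> cases σ x0 <;> simp
    calc P.card ≤ _ := Finset.card_le_card h0
      _ ≤ (S1.image (fun i => f (i + 2))).card + 1 := Finset.card_insert_le _ _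
      _ ≤ S1.card + 1 := by
        have := Finset.card_image_le (s := S1) (f := fun i => f (i + 2))
        omega
  have c2 : Q.card ≤ S2.card + 1 := by
    have h0 : Q ⊆ insert (f (m - 2)) (S2.image f) := by
      intro x hxQ
      obtain ⟨hxl, hxσ⟩ := hQ x hxQ
      obtain ⟨j, hj, hjx⟩ := hmem x hxl
      rw [Finset.mem_insert]
      have hj0 : j ≠ m - 1 := by
        rintro rfl
        rw [hfl] at hjx
        exact hxσ (by rw [hxz, hjx])
      rcases eq_or_ne j (m - 2) with rfl | hj1
      · exact Or.inl hjx.symm
      right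
      rw [Finset.mem_image]
      refine ⟨j, ?_, hjx⟩
      rw [hS2, hS0]
      simp only [Finset.mem_filter, Finset.mem_range]
      exact ⟨⟨by omega, by rw [hjx]; exact hxσ⟩, by rw [hjx]; exact hxQ⟩
    calc Q.card ≤ _ := Finset.card_le_card h0
      _ ≤ (S2.image f).card + 1 := Finset.card_insert_le _ _
      _ ≤ S2.card + 1 := by
        have := Finset.card_image_le (s := S2) (f := f)
        omega
  have hne : (S1 ∩ S2).Nonempty := by
    rw [← Finset.card_pos]
    have h1 := Finset.card_union_add_card_inter S1 S2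
    have h2 : (S1 ∪ S2).card ≤ S0.card :=
      Finset.card_le_card (Finset.union_subset (Finset.filter_subset _ _)
        (Finset.filter_subset _ _))
    omega
  obtain ⟨i, hi⟩ := hne
  rw [Finset.mem_inter, hS1, hS2, Finset.mem_filter, Finset.mem_filter, hS0, Finset.mem_filter,
    Finset.mem_range] at hi
  obtain ⟨⟨⟨hi1, hi2⟩, hi3⟩, -, hi4⟩ := hi
  have hlt1 : i + 1 < l.length := by omega
  refine ⟨l.take (i + 1), f (i + 1), l.drop (i + 2), ?_, ⟨f i, ?_, hi4⟩,
    ⟨f (i + 2), ?_, hi3⟩, ?_⟩
  · rw [hfi (i + 1) hlt1, ← List.drop_eq_getElem_cons hlt1, List.take_append_drop]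
  · rw [List.getLast?_take, hfi i (by omega)]
    have : l[i]? = some l[i] := List.getElem?_eq_getElem (by omega)
    simp [this]
  · rw [List.head?_drop, hfi (i + 2) (by omega)]
    rw [List.getElem?_eq_getElem (by omega)]
    simp
  · have h1 := hchain i (by omega)
    revert h1 hi2
    cases σ (f i) <;> cases σ (f (i + 1)) <;> cases σ x0 <;> simp

/-! ### Moon-Moser -/

open Classical in
/-- `0` if the last member of `u` is related to the first member of `v` (or one of them is missing),
`1` otherwise -/
noncomputable def jn (r : G → G → Prop) (u v : List G) : ℕ :=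
  if (∀ a ∈ u.getLast?, ∀ b ∈ v.head?, r a b) then 0 else 1

/-- the number of consecutive pairs that are not related -/
noncomputable def bad (r : G → G → Prop) : List G → ℕ
  | [] => 0
  | a :: l => jn r [a] l + bad r l

lemma jn_nil_left (r : G → G → Prop) (v : List G) : jn r [] v = 0 := by simp [jn]

lemma jn_nil_right (r : G → G → Prop) (v : List G) : jn r v [] = 0 := by simp [jn]

lemma jn_append_right (r : G → G → Prop) {w u v : List G} (hu : u ≠ []) :
    jn r w (u ++ v) = jn r w u := by
  unfold jn
  rw [List.head?_append_of_ne_nil _ hu]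

lemma jn_append_left (r : G → G → Prop) {w u v : List G} (hv : v ≠ []) :
    jn r (u ++ v) w = jn r v w := by
  unfold jn
  rw [List.getLast?_append_of_ne_nil _ hv]

lemma jn_cons_left (r : G → G → Prop) {w v : List G} (a : G) (hv : v ≠ []) :
    jn r (a :: v) w = jn r v w := jn_append_left r (u := [a]) hv

lemma bad_append (r : G → G → Prop) : ∀ u v : List G,
    bad r (u ++ v) = bad r u + bad r v + jn r u v
  | [], v => by simp [bad, jn_nil_left]
  | a :: u, v => by
    have ih := bad_append r u v
    rcases eq_or_ne u [] with rfl | hu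
    · simp [bad, jn_nil_right]
      omega
    · rw [List.cons_append, bad, bad, ih, jn_append_right r hu, jn_cons_left r a hu]
      omega

lemma jn_reverse {r : G → G → Prop} (hs : ∀ x y, r x y → r y x) (u v : List G) :
    jn r v.reverse u.reverse = jn r u v := by
  unfold jn
  rw [List.head?_reverse, List.getLast?_reverse]
  have : (∀ a ∈ v.head?, ∀ b ∈ u.getLast?, r a b) ↔ (∀ a ∈ u.getLast?, ∀ b ∈ v.head?, r a b) :=
    ⟨fun h a ha b hb => hs _ _ (h b hb a ha), fun h a ha b hb => hs _ _ (h b hb a ha)⟩
  by_cases hc : (∀ a ∈ u.getLast?, ∀ b ∈ v.head?, r a b)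
  · rw [if_pos hc, if_pos (this.2 hc)]
  · rw [if_neg hc, if_neg (fun h => hc (this.1 h))]

lemma bad_reverse {r : G → G → Prop} (hs : ∀ x y, r x y → r y x) : ∀ l : List G,
    bad r l.reverse = bad r l
  | [] => rfl
  | a :: l => by
    have ih := bad_reverse hs l
    rw [List.reverse_cons, bad_append, ih]
    have h1 : jn r l.reverse [a] = jn r [a] l := by
      have := jn_reverse hs [a] l
      simpa using this
    rw [h1]
    simp [bad, jn_nil_right]
    omega

lemma jn_eq_zero {r : G → G → Prop} {u v : List G} (h : jn r u v = 0) :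
    ∀ a ∈ u.getLast?, ∀ b ∈ v.head?, r a b := by
  unfold jn at h
  by_contra hne
  rw [if_neg hne] at h
  exact one_ne_zero h

lemma jn_eq_zero_of {r : G → G → Prop} {u v : List G}
    (h : ∀ a ∈ u.getLast?, ∀ b ∈ v.head?, r a b) : jn r u v = 0 := by
  unfold jn
  rw [if_pos h]

lemma jn_le_one (r : G → G → Prop) (u v : List G) : jn r u v ≤ 1 := by
  unfold jn
  split_ifs <;> simp

lemma isChain_of_bad {r : G → G → Prop} : ∀ {l : List G}, bad r l = 0 → l.IsChain r
  | [], _ => List.IsChain.nil
  | a :: l, h => by
    rw [bad] at h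
    rw [List.isChain_cons]
    refine ⟨fun y hy => jn_eq_zero (r := r) (u := [a]) (v := l) (by omega) a (by simp) y hy,
      isChain_of_bad (by omega)⟩

lemma exists_bad {r : G → G → Prop} : ∀ {l : List G}, bad r l ≠ 0 →
    ∃ u v, l = u ++ v ∧ jn r u v = 1
  | [], h => absurd rfl h
  | a :: l, h => by
    rw [bad] at h
    by_cases h1 : jn r [a] l = 0
    · obtain ⟨u, v, rfl, huv⟩ := exists_bad (r := r) (l := l) (by omega)
      have hu : u ≠ [] := by
        rintro rfl
        rw [jn_nil_left] at huv
        omega
      exact ⟨a :: u, v, rfl, by rw [jn_cons_left r a hu]; exact huv⟩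
    · refine ⟨[a], l, rfl, ?_⟩
      have := jn_le_one r [a] l
      omega

/-- the number of cyclically consecutive pairs that are not related -/
noncomputable def cbad (r : G → G → Prop) (l : List G) : ℕ := bad r l + jn r l l

lemma cyc_of_cbad {r : G → G → Prop} {l : List G} (h : cbad r l = 0) : Cyc r l := by
  unfold cbad at h
  exact ⟨isChain_of_bad (by omega), jn_eq_zero (by omega)⟩

lemma cbad_append (r : G → G → Prop) {u v : List G} (hu : u ≠ []) (hv : v ≠ []) :
    cbad r (u ++ v) = bad r u + bad r v + jn r u v + jn r v u := by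
  unfold cbad
  rw [bad_append, jn_append_left r hv, jn_append_right r hu]

/-- a rotation whose closing pair is not related -/
lemma exists_rot_bad {r : G → G → Prop} {l : List G} (h : cbad r l ≠ 0) :
    ∃ u v, l = u ++ v ∧ cbad r (v ++ u) = cbad r l ∧ jn r (v ++ u) (v ++ u) = 1 := by
  by_cases h1 : jn r l l = 0
  · unfold cbad at h
    obtain ⟨u, v, rfl, huv⟩ := exists_bad (r := r) (l := l) (by omega)
    have hu : u ≠ [] := by
      rintro rfl
      rw [jn_nil_left] at huv
      omega
    have hv : v ≠ [] := by
      rintro rfl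
      rw [jn_nil_right] at huv
      omega
    refine ⟨u, v, rfl, ?_, ?_⟩
    · rw [cbad_append r hu hv, cbad_append r hv hu]
      omega
    · rw [jn_append_left r hu, jn_append_right r hv]
      exact huv
  · refine ⟨[], l, rfl, by simp, ?_⟩
    have := jn_le_one r l l
    simp only [List.append_nil]
    omega

lemma alt_list [DecidableEq G] (σ : G → Bool) : ∀ (q : ℕ) (T : Finset G),
    (T.filter (fun x => σ x = true)).card = q → (T.filter (fun x => σ x = false)).card = q →
    ∃ l : List G, l.IsChain (fun x y => σ x ≠ σ y) ∧ (∀ b ∈ l.head?, σ b = true) ∧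
      (∀ a ∈ l.getLast?, σ a = false) ∧ l.Nodup ∧ l.toFinset = T := by
  intro q
  induction q with
  | zero =>
    intro T h1 h0
    have hT : T = ∅ := by
      rw [Finset.eq_empty_iff_forall_notMem]
      intro x hx
      rw [Finset.card_eq_zero, Finset.filter_eq_empty_iff] at h1 h0
      have := h1 hx
      have := h0 hx
      revert this
      cases h : σ x <;> simp_all
    subst hT
    exact ⟨[], by simp, by simp, by simp, by simp, by simp⟩
  | succ q ih =>
    intro T h1 h0
    obtain ⟨x, hx⟩ := Finset.card_pos.1 (by rw [h1]; omega : 0 < (T.filter (fun x => σ x = true)).card)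
    obtain ⟨y, hy⟩ := Finset.card_pos.1 (by rw [h0]; omega : 0 < (T.filter (fun x => σ x = false)).card)
    rw [Finset.mem_filter] at hx hy
    have hxy : x ≠ y := by
      rintro rfl
      rw [hx.2] at hy
      exact absurd hy.2 (by simp)
    have e1 : ((T.erase x).erase y).filter (fun x => σ x = true) =
        (T.filter (fun x => σ x = true)).erase x := by
      ext w
      simp only [Finset.mem_filter, Finset.mem_erase]
      constructor
      · rintro ⟨⟨a, b, c⟩, d⟩
        exact ⟨b, c, d⟩
      · rintro ⟨b, c, d⟩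
        refine ⟨⟨?_, b, c⟩, d⟩
        rintro rfl
        rw [hy.2] at d
        exact absurd d (by simp)
    have e0 : ((T.erase x).erase y).filter (fun x => σ x = false) =
        (T.filter (fun x => σ x = false)).erase y := by
      ext w
      simp only [Finset.mem_filter, Finset.mem_erase]
      constructor
      · rintro ⟨⟨a, b, c⟩, d⟩
        exact ⟨a, c, d⟩
      · rintro ⟨a, c, d⟩
        refine ⟨⟨a, ?_, c⟩, d⟩
        rintro rfl
        rw [hx.2] at d
        exact absurd d (by simp)
    obtain ⟨l, hl1, hl2, hl3, hl4, hl5⟩ := ih ((T.erase x).erase y)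
      (by rw [e1, Finset.card_erase_of_mem (Finset.mem_filter.2 hx), h1]; omega)
      (by rw [e0, Finset.card_erase_of_mem (Finset.mem_filter.2 hy), h0]; omega)
    have hxl : x ∉ l := by
      rw [← List.mem_toFinset, hl5]
      simp
    have hyl : y ∉ l := by
      rw [← List.mem_toFinset, hl5]
      simp
    refine ⟨x :: y :: l, ?_, ?_, ?_, ?_, ?_⟩
    · rw [List.isChain_cons_cons]
      refine ⟨by rw [hx.2, hy.2]; simp, ?_⟩
      rw [List.isChain_cons]
      refine ⟨fun b hb => ?_, hl1⟩
      rw [hl2 b hb, hy.2]
      simp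
    · intro b hb
      simp only [List.head?_cons, Option.mem_def, Option.some.injEq] at hb
      rw [← hb]
      exact hx.2
    · intro a ha
      rcases eq_or_ne l [] with rfl | hne
      · simp only [List.getLast?_cons_cons, List.getLast?_singleton, Option.mem_def,
          Option.some.injEq] at ha
        rw [← ha]
        exact hy.2
      · have : (x :: y :: l).getLast? = l.getLast? := by
          rw [show x :: y :: l = [x, y] ++ l from rfl, List.getLast?_append_of_ne_nil _ hne]
        rw [this] at ha
        exact hl3 a ha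
    · rw [List.nodup_cons, List.nodup_cons]
      refine ⟨?_, hyl, hl4⟩
      rw [List.mem_cons]
      rintro (h | h)
      · exact hxy h
      · exact hxl h
    · ext w
      simp only [List.toFinset_cons, hl5, Finset.mem_insert, Finset.mem_erase]
      constructor
      · rintro (rfl | rfl | ⟨-, -, h⟩)
        · exact hx.1
        · exact hy.1
        · exact h
      · intro h
        by_cases h1 : w = x
        · exact Or.inl h1
        · by_cases h2 : w = y
          · exact Or.inr (Or.inl h2)
          · exact Or.inr (Or.inr ⟨h2, h1, h⟩)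

/-- **Moon-Moser.**  A balanced bipartite graph with `q` vertices on each side in which every vertex
has at least `d > q / 2` neighbours has a Hamilton cycle. -/
theorem moonMoser [DecidableEq G] (r : G → G → Prop) (hs : ∀ x y, r x y → r y x) (σ : G → Bool)
    (hσ : ∀ x y, r x y → σ x ≠ σ y) (T : Finset G) (q d : ℕ)
    (h1 : (T.filter (fun x => σ x = true)).card = q)
    (h0 : (T.filter (fun x => σ x = false)).card = q)
    (hd : ∀ x ∈ T, ∃ N : Finset G, (∀ y ∈ N, y ∈ T ∧ r x y) ∧ d ≤ N.card) (h2 : q < 2 * d) :
    ∃ l : List G, Cyc r l ∧ l.Nodup ∧ l.toFinset = T := by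
  have key : ∀ (N : ℕ) (l : List G), Cyc (fun x y => σ x ≠ σ y) l → l.Nodup → l.toFinset = T →
      cbad r l ≤ N → ∃ l : List G, Cyc r l ∧ l.Nodup ∧ l.toFinset = T := by
    intro N
    induction N with
    | zero =>
      intro l _ h3 h4 h5
      exact ⟨l, cyc_of_cbad (by omega), h3, h4⟩
    | succ N ih =>
      intro l hl h3 h4 h5
      by_cases hb : cbad r l = 0
      · exact ⟨l, cyc_of_cbad hb, h3, h4⟩
      obtain ⟨u, v, rfl, h6, h7⟩ := exists_rot_bad hb
      have hl' := hl.rot
      have hperm : (v ++ u).Perm (u ++ v) := List.perm_append_comm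
      have h3' : (v ++ u).Nodup := hperm.nodup_iff.2 h3
      have h4' : (v ++ u).toFinset = T := by
        rw [← h4]
        exact List.toFinset_eq_of_perm _ _ hperm
      rw [← h6] at h5
      generalize hL : v ++ u = L at *
      clear hperm h3 h4 hl hb h6 hL u v
      have hLne : L ≠ [] := by
        rintro rfl
        rw [jn_nil_left] at h7
        omega
      obtain ⟨x0, hx0⟩ : ∃ x0, x0 ∈ L.head? := by
        cases L with
        | nil => exact absurd rfl hLne
        | cons a t => exact ⟨a, by simp⟩
      obtain ⟨z0, hz0⟩ : ∃ z0, z0 ∈ L.getLast? :=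
        ⟨L.getLast hLne, by rw [List.getLast?_eq_getLast_of_ne_nil hLne]; rfl⟩
      have hx0L : x0 ∈ L := List.mem_of_mem_head? hx0
      have hz0L : z0 ∈ L := List.mem_of_mem_getLast? hz0
      have hx0T : x0 ∈ T := by rw [← h4']; simpa using hx0L
      have hz0T : z0 ∈ T := by rw [← h4']; simpa using hz0L
      have hne : σ z0 ≠ σ x0 := hl'.2 z0 hz0 x0 hx0
      obtain ⟨P, hP, hPc⟩ := hd x0 hx0T
      obtain ⟨Q, hQ, hQc⟩ := hd z0 hz0T
      have hcnt : (L.toFinset.filter (fun x => σ x = σ x0)).card = q := by
        rw [h4']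
        cases h : σ x0
        · exact h0
        · exact h1
      obtain ⟨u, v, rfl, ⟨a, hau, haQ⟩, ⟨b, hbv, hbP⟩⟩ := split σ h3' hl'.1 hx0 hz0 hne.symm P Q
        (fun x hx => ⟨by rw [← List.mem_toFinset, h4']; exact (hP x hx).1,
          (hσ _ _ (hP x hx).2).symm⟩)
        (fun x hx => ⟨by rw [← List.mem_toFinset, h4']; exact (hQ x hx).1, by
          have := hσ _ _ (hQ x hx).2
          revert this hne
          cases σ x <;> cases σ x0 <;> cases σ z0 <;> simp⟩)
        (by omega)
      have hu : u ≠ [] := by
        rintro rfl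
        simp at hau
      have hv : v ≠ [] := by
        rintro rfl
        simp at hbv
      rw [List.head?_append_of_ne_nil _ hu] at hx0
      rw [List.getLast?_append_of_ne_nil _ hv] at hz0
      have e1 : ∀ a' ∈ u.getLast?, ∀ b' ∈ v.getLast?, r a' b' := by
        intro a' ha' b' hb'
        rw [Option.mem_def] at ha' hb' hau hz0
        rw [hau] at ha'
        rw [hz0] at hb'
        simp only [Option.some.injEq] at ha' hb'
        rw [← ha', ← hb']
        exact hs _ _ (hQ a haQ).2
      have e2 : ∀ a' ∈ v.head?, ∀ b' ∈ u.head?, r a' b' := by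
        intro a' ha' b' hb'
        rw [Option.mem_def] at ha' hb' hbv hx0
        rw [hbv] at ha'
        rw [hx0] at hb'
        simp only [Option.some.injEq] at ha' hb'
        rw [← ha', ← hb']
        exact hs _ _ (hP b hbP).2
      have hjz1 : jn r u v.reverse = 0 := by
        apply jn_eq_zero_of
        rw [List.head?_reverse]
        exact e1
      have hjz2 : jn r v.reverse u = 0 := by
        apply jn_eq_zero_of
        rw [List.getLast?_reverse]
        exact e2
      have hperm : (u ++ v.reverse).Perm (u ++ v) :=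
        List.Perm.append_left _ (List.reverse_perm v)
      refine ih (u ++ v.reverse) ?_ (hperm.nodup_iff.2 h3')
        ((List.toFinset_eq_of_perm _ _ hperm).trans h4') ?_
      · have hsσ : ∀ x y, σ x ≠ σ y → σ y ≠ σ x := fun _ _ h => h.symm
        have hch := List.isChain_append.1 hl'.1
        exact cyc_switch (r := fun x y => σ x ≠ σ y) hsσ hch.1 hch.2.1
          (fun a ha b hb => hσ _ _ (e1 a ha b hb)) (fun a ha b hb => hσ _ _ (e2 a ha b hb)) hu hv
      · rw [cbad_append r hu (by simpa using hv), hjz1, hjz2, bad_reverse hs]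
        rw [cbad_append r hu hv] at h5
        rw [jn_append_left r hv, jn_append_right r hu] at h7
        omega
  obtain ⟨l, hl1, hl2, hl3, hl4, hl5⟩ := alt_list σ q T h1 h0
  refine key (cbad r l) l ⟨hl1, ?_⟩ hl4 hl5 le_rfl
  intro a ha b hb
  rw [hl2 b hb, hl3 a ha]
  simp

end Pool.Agent.H136.CycList
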